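import Pool.Agent.Helper28.Tg.Lap
import Pool.Graph.R_seed8.H5R2.NB.EX
import Pool.Graph.R_seed8.H5R2.NB.EXA
import Pool.Graph.R_seed8.H4R2.LO.Bsym

/-! # Spectral averaging (part AVG) -/

set_option autoImplicit false

open MeasureTheory Filter Topology
open scoped BigOperators ENNReal NNReal InnerProductSpace ComplexConjugate

namespace Pool.Agent.Helper18.Tg.Avg

open Pool.Agent.H4R2.LO (Zd dd bx Hg L2f IsSpec PolyB IsGen)
open Pool.Agent.H5R2.NB (UG L2 dl IsGrp PP)
open Pool.Agent.Helper28.Tg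

variable {d : ℕ}

/-! ### the Cauchy density -/

theorem cauchy_int (a : ℝ) {b : ℝ} (hb : 0 < b) :
    ∫⁻ s : ℝ, ENNReal.ofReal (b / ((s + a) ^ 2 + b ^ 2)) ≤ 4 := by
  have hg : (Real.toNNReal b : ℝ) = b := Real.coe_toNNReal b hb.le
  have h1 := ProbabilityTheory.lintegral_cauchyPDF_eq_one (-a) (γ := Real.toNNReal b)
    (by intro h; rw [h] at hg; exact hb.ne' hg.symm)
  have h2 : ∀ s : ℝ, ENNReal.ofReal (b / ((s + a) ^ 2 + b ^ 2)) =
      ENNReal.ofReal Real.pi * ProbabilityTheory.cauchyPDF (-a) (Real.toNNReal b) s := by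
    intro s
    rw [ProbabilityTheory.cauchyPDF_def, ← ENNReal.ofReal_mul Real.pi_pos.le,
      ProbabilityTheory.cauchyPDFReal_def, hg]
    congr 1
    have : (0 : ℝ) < (s + a) ^ 2 + b ^ 2 := by positivity
    simp only [sub_neg_eq_add]
    have := Real.pi_pos
    field_simp
  simp_rw [h2]
  rw [lintegral_const_mul _ (ProbabilityTheory.measurable_cauchyPDF _ _), h1, mul_one]
  have h3 : Real.pi ≤ 4 := Real.pi_le_four
  calc ENNReal.ofReal Real.pi ≤ ENNReal.ofReal 4 := ENNReal.ofReal_le_ofReal h3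
    _ = 4 := by simp

/-! ### the Green function -/

/-- the diagonal Green function -/
noncomputable def Gn (ev : (Zd d → ℝ) → UG (L2 (Zd d))) (x : Zd d) (V : Zd d → ℝ) (E ε : ℝ) : ℂ :=
  lap (ev V) ((E : ℂ) + ε * Complex.I) x x

theorem im_z (E ε : ℝ) : ((E : ℂ) + ε * Complex.I).im = ε := by simp

theorem single_eq (x y : Zd d) :
    (Pi.single x 1 : Zd d → ℂ) y = if y = x then 1 else 0 := by
  by_cases h : y = x
  · subst h; simp
  · simp [h]

theorem tsum_single_conj (x : Zd d) (u : Zd d → ℂ) :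
    ∑' y, (starRingEnd ℂ) ((Pi.single x 1 : Zd d → ℂ) y) * u y = u x := by
  rw [tsum_eq_single x]
  · simp
  · intro y hy
    rw [single_eq, if_neg hy]
    simp

theorem l2_single (x : Zd d) : L2f (Pi.single x 1 : Zd d → ℂ) := by
  unfold L2f
  refine summable_of_ne_finset_zero (s := {x}) fun y hy => ?_
  rw [Finset.mem_singleton] at hy
  rw [single_eq, if_neg hy]
  simp

section

variable {ev : (Zd d → ℝ) → UG (L2 (Zd d))} (hev : ∀ V, IsGrp (-1) V (ev V))

include hev

theorem sol (x : Zd d) (V : Zd d → ℝ) (E : ℝ) {ε : ℝ} (hε : 0 < ε) :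
    L2f (lap (ev V) ((E : ℂ) + ε * Complex.I) x) ∧
      ∀ y, Hg (-1) V (lap (ev V) ((E : ℂ) + ε * Complex.I) x) y -
        ((E : ℂ) + ε * Complex.I) * lap (ev V) ((E : ℂ) + ε * Complex.I) x y =
          (Pi.single x 1 : Zd d → ℂ) y := by
  obtain ⟨h1, h2⟩ := t_LAP d (-1) V (ev V) (hev V) ((E : ℂ) + ε * Complex.I)
    (by rw [im_z]; exact hε) x
  exact ⟨h1, fun y => by rw [h2 y, single_eq]⟩

/-- the Green function is the Stieltjes transform -/
theorem stieltjes (x : Zd d) (V : Zd d → ℝ) (m : Measure ℝ)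
    (hm : IsSpec (-1) V (Pi.single x 1) m) (E : ℝ) {ε : ℝ} (hε : 0 < ε) :
    ENNReal.ofReal (Gn ev x V E ε).im =
      ∫⁻ t, ENNReal.ofReal (ε / ((t - E) ^ 2 + ε ^ 2)) ∂m := by
  have hfin : IsFiniteMeasure m := hm.1
  have hz : ((E : ℂ) + ε * Complex.I).im ≠ 0 := by rw [im_z]; exact hε.ne'
  obtain ⟨h1, h2⟩ := sol hev x V E hε
  have h3 := Pool.Agent.H4R2.LO.Bsym.bs_borel hm _ hz _ h1 h2
  rw [tsum_single_conj] at h3
  have h4 : (Gn ev x V E ε).im = ∫ t : ℝ, ε / ((t - E) ^ 2 + ε ^ 2) ∂m := by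
    unfold Gn
    rw [← h3]
    have h5 := integral_im (Pool.Agent.H4R2.LO.Bsym.bs_int m _ hz)
    have h6 : RCLike.im (∫ t : ℝ, ((t : ℂ) - ((E : ℂ) + ε * Complex.I))⁻¹ ∂m) =
      (∫ t : ℝ, ((t : ℂ) - ((E : ℂ) + ε * Complex.I))⁻¹ ∂m).im := rfl
    rw [← h6, ← h5]
    refine integral_congr_ae (Eventually.of_forall fun t => ?_)
    have h7 : RCLike.im (((t : ℂ) - ((E : ℂ) + ε * Complex.I))⁻¹) =
      (((t : ℂ) - ((E : ℂ) + ε * Complex.I))⁻¹).im := rfl
    simp only [h7]
    rw [Complex.inv_im, Complex.normSq_apply]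
    simp only [Complex.sub_im, Complex.ofReal_im, Complex.add_im, Complex.mul_im, Complex.I_im,
      Complex.I_re, Complex.ofReal_re, Complex.sub_re, Complex.add_re, Complex.mul_re]
    congr 1 <;> ring
  rw [h4, ofReal_integral_eq_lintegral_ofReal]
  · refine Integrable.of_bound (C := ε⁻¹) ?_ (Eventually.of_forall fun t => ?_)
    · refine Measurable.aestronglyMeasurable ?_
      fun_prop
    · have h8 : (0 : ℝ) < (t - E) ^ 2 + ε ^ 2 := by positivity
      rw [Real.norm_of_nonneg (by positivity), div_le_iff₀ h8]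
      rw [inv_mul_eq_div, le_div_iff₀ hε]
      nlinarith [sq_nonneg (t - E)]
  · exact Eventually.of_forall fun t => by positivity

/-- the imaginary part is positive -/
theorem im_pos (x : Zd d) (V : Zd d → ℝ) (E : ℝ) {ε : ℝ} (hε : 0 < ε) :
    0 < (Gn ev x V E ε).im := by
  obtain ⟨h1, h2⟩ := sol hev x V E hε
  have h3 := Pool.Agent.H4R2.LO.Bsym.symm (-1) V _ _ _ _ _ _ h1 h1 (l2_single x) (l2_single x) h2 h2
  rw [Pool.Agent.H4R2.LO.Bsym.bs_self, tsum_single_conj,
    ← Pool.Agent.H4R2.LO.Bsym.bs_conj, tsum_single_conj] at h3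
  have h4 := congrArg Complex.im h3
  simp only [Complex.mul_im, Complex.sub_re, Complex.sub_im, Complex.conj_re, Complex.conj_im,
    Complex.ofReal_re, Complex.ofReal_im, im_z] at h4
  have h5 : 0 < ∑' y, ‖lap (ev V) ((E : ℂ) + ε * Complex.I) x y‖ ^ 2 := by
    refine lt_of_le_of_ne (tsum_nonneg fun y => by positivity) fun h0 => ?_
    have h6 : ∀ y, lap (ev V) ((E : ℂ) + ε * Complex.I) x y = 0 := by
      intro y
      have h7 : ‖lap (ev V) ((E : ℂ) + ε * Complex.I) x y‖ ^ 2 ≤
          ∑' y, ‖lap (ev V) ((E : ℂ) + ε * Complex.I) x y‖ ^ 2 :=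
        Summable.le_tsum h1 y fun y _ => by positivity
      rw [← h0] at h7
      have h8 : ‖lap (ev V) ((E : ℂ) + ε * Complex.I) x y‖ = 0 := by
        nlinarith [norm_nonneg (lap (ev V) ((E : ℂ) + ε * Complex.I) x y)]
      exact norm_eq_zero.1 h8
    have h9 := h2 x
    rw [single_eq, if_pos rfl] at h9
    unfold Hg at h9
    simp [h6] at h9
  unfold Gn
  nlinarith

/-- rank one perturbation -/
theorem rank_one (x : Zd d) (V : Zd d → ℝ) (E : ℝ) {ε : ℝ} (hε : 0 < ε) :
    ∃ a b : ℝ, 0 < b ∧ ∀ s : ℝ,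
      (Gn ev x (Function.update V x s) E ε).im = b / ((s + a) ^ 2 + b ^ 2) := by
  have hz : ((E : ℂ) + ε * Complex.I).im ≠ 0 := by rw [im_z]; exact hε.ne'
  set z : ℂ := (E : ℂ) + ε * Complex.I with hzd
  set G : ℝ → ℂ := fun s => Gn ev x (Function.update V x s) E ε with hG
  -- the relation between two values
  have hrel : ∀ s : ℝ, G 0 = (1 + (s : ℂ) * G 0) * G s := by
    intro s
    obtain ⟨h1, h2⟩ := sol hev x (Function.update V x 0) E hε
    obtain ⟨h3, h4⟩ := sol hev x (Function.update V x s) E hε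
    rw [← hzd] at h1 h2 h3 h4
    have h5 : ∀ y, Hg (-1) (Function.update V x s) (lap (ev (Function.update V x 0)) z x) y -
        z * lap (ev (Function.update V x 0)) z x y =
        (1 + (s : ℂ) * G 0) * (Pi.single x 1 : Zd d → ℂ) y := by
      intro y
      have h6 := h2 y
      rw [single_eq] at h6 ⊢
      by_cases hy : y = x
      · subst hy
        rw [if_pos rfl] at h6 ⊢
        unfold Hg at h6 ⊢
        simp only [Function.update_self, Complex.ofReal_zero, zero_mul, add_zero] at h6 ⊢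
        rw [mul_one, ← h6]
        simp only [hG, Gn, ← hzd]
        ring
      · rw [if_neg hy] at h6 ⊢
        unfold Hg at h6 ⊢
        rw [Function.update_of_ne hy] at h6 ⊢
        rw [mul_zero, ← h6]
    have h7 : ∀ y, Hg (-1) (Function.update V x s)
        (fun y => (1 + (s : ℂ) * G 0) * lap (ev (Function.update V x s)) z x y) y -
        z * ((1 + (s : ℂ) * G 0) * lap (ev (Function.update V x s)) z x y) =
        (1 + (s : ℂ) * G 0) * (Pi.single x 1 : Zd d → ℂ) y := by
      intro y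
      rw [← h4 y]
      unfold Hg
      simp only [← mul_add, ← Finset.mul_sum]
      ring
    have h8 := Pool.Agent.H4R2.LO.Bsym.uniq (-1) (Function.update V x s) _ _ _ z hz h1
      (Pool.Agent.H4R2.LO.Bsym.bs_smul (1 + (s : ℂ) * G 0) h3) h5 h7
    have h9 := congrFun h8 x
    exact h9
  have h0 : 0 < (G 0).im := im_pos hev x _ E hε
  have hG0 : G 0 ≠ 0 := by
    intro h
    rw [h] at h0
    simp at h0
  set w : ℂ := (G 0)⁻¹ with hw
  have hwim : w.im < 0 := by
    rw [hw, Complex.inv_im]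
    have : 0 < Complex.normSq (G 0) := Complex.normSq_pos.2 hG0
    exact div_neg_of_neg_of_pos (by linarith) this
  refine ⟨w.re, -w.im, by linarith, fun s => ?_⟩
  have h1 : (w + s) * G s = 1 := by
    have h2 := hrel s
    have h3 : w * G 0 = 1 := inv_mul_cancel₀ hG0
    have h5 : G 0 * ((w + s) * G s) = G 0 * 1 := by
      calc G 0 * ((w + s) * G s) = (w * G 0 + s * G 0) * G s := by ring
        _ = G 0 * 1 := by rw [h3, ← h2, mul_one]
    exact mul_left_cancel₀ hG0 h5
  have h4 : G s = (w + s)⁻¹ := eq_inv_of_mul_eq_one_right h1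
  show (G s).im = _
  rw [h4, Complex.inv_im, Complex.normSq_apply]
  simp only [Complex.add_im, Complex.ofReal_im, Complex.add_re, Complex.ofReal_re]
  congr 1 <;> ring

end

/-! ### resampling one site -/

theorem meas_update (x : Zd d) : Measurable
    (fun p : (Zd d → ℝ) × ℝ => Function.update p.1 x p.2) := by
  rw [measurable_pi_iff]
  intro i
  by_cases h : i = x
  · subst h
    simp only [Function.update_self]
    exact measurable_snd
  · simp only [Function.update_of_ne h]
    exact (measurable_pi_apply i).comp measurable_fst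

theorem resample (x : Zd d) (ν : Measure ℝ) [IsProbabilityMeasure ν] :
    MeasurePreserving (fun p : (Zd d → ℝ) × ℝ => Function.update p.1 x p.2)
      ((PP d ν).prod ν) (PP d ν) := by
  refine ⟨meas_update x, ?_⟩
  apply Measure.eq_infinitePi
  intro s t ht
  classical
  rw [Measure.map_apply (meas_update x)]
  swap
  · exact MeasurableSet.pi (Finset.countable_toSet s) (fun i _ => ht i)
  have hpre : (fun p : (Zd d → ℝ) × ℝ => Function.update p.1 x p.2) ⁻¹'
      ((s : Set (Zd d)).pi t) =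
      (((s.erase x : Finset (Zd d)) : Set (Zd d)).pi t) ×ˢ
        (if x ∈ s then t x else Set.univ) := by
    ext p
    simp only [Set.mem_preimage, Set.mem_pi, Finset.mem_coe, Set.mem_prod, Finset.mem_erase]
    constructor
    · intro h
      refine ⟨?_, ?_⟩
      · intro i hi
        have := h i hi.2
        rwa [Function.update_of_ne hi.1] at this
      · split_ifs with h0
        · have := h x h0
          rwa [Function.update_self] at this
        · trivial
    · rintro ⟨h1, h2⟩ i hi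
      by_cases h0 : i = x
      · subst h0
        rw [Function.update_self]
        rwa [if_pos hi] at h2
      · rw [Function.update_of_ne h0]
        exact h1 i ⟨h0, hi⟩
  rw [hpre, Measure.prod_prod]
  unfold PP
  rw [Measure.infinitePi_pi (fun _ => ν) (fun i _ => ht i)]
  by_cases h0 : x ∈ s
  · rw [if_pos h0, Finset.prod_erase_mul s (fun i => ν (t i)) h0]
  · rw [if_neg h0, measure_univ, mul_one, Finset.erase_eq_of_notMem h0]

/-! ### a lower bound for the smoothed indicator -/

theorem kernel_ge {U : Set ℝ} {t r ε : ℝ} (hU : Metric.ball t r ⊆ U) (hε : 0 < ε) (hr : ε ≤ r) :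
    1 ≤ ∫⁻ E in U, ENNReal.ofReal (ε / ((t - E) ^ 2 + ε ^ 2)) := by
  have h1 : Metric.ball t ε ⊆ U := (Metric.ball_subset_ball hr).trans hU
  calc (1 : ℝ≥0∞) = ENNReal.ofReal (1 / (2 * ε)) * volume (Metric.ball t ε) := by
        rw [Real.volume_ball, ← ENNReal.ofReal_mul (by positivity)]
        rw [one_div, inv_mul_cancel₀ (by positivity), ENNReal.ofReal_one]
    _ = ∫⁻ _E in Metric.ball t ε, ENNReal.ofReal (1 / (2 * ε)) := by
        rw [setLIntegral_const]
    _ ≤ ∫⁻ E in Metric.ball t ε, ENNReal.ofReal (ε / ((t - E) ^ 2 + ε ^ 2)) := by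
        refine setLIntegral_mono' Metric.isOpen_ball.measurableSet fun E hE => ?_
        refine ENNReal.ofReal_le_ofReal ?_
        have h2 : |t - E| < ε := by
          rw [Metric.mem_ball, Real.dist_eq, abs_sub_comm] at hE
          exact hE
        have h3 : (t - E) ^ 2 ≤ ε ^ 2 := by
          rw [← sq_abs]
          exact pow_le_pow_left₀ (abs_nonneg _) h2.le 2
        rw [div_le_div_iff₀ (by positivity) (by positivity)]
        nlinarith
    _ ≤ _ := lintegral_mono_set h1

/-! ### assembly -/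

/-- the smoothing parameters -/
noncomputable def ep (j : ℕ) : ℝ := 1 / ((j : ℝ) + 1)

theorem ep_pos (j : ℕ) : 0 < ep j := by unfold ep; positivity

theorem ep_lim {r : ℝ} (hr : 0 < r) : ∀ᶠ j : ℕ in atTop, ep j ≤ r := by
  have := tendsto_one_div_add_atTop_nhds_zero_nat (𝕜 := ℝ)
  exact (this.eventually_lt_const hr).mono fun j hj => hj.le

/-- the integrand -/
noncomputable def Fj (ev : (Zd d → ℝ) → UG (L2 (Zd d))) (x : Zd d) (B : Set ((Zd d → ℝ) × ℝ))
    (j : ℕ) (p : (Zd d → ℝ) × ℝ) : ℝ≥0∞ :=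
  B.indicator (fun p => ENNReal.ofReal (Gn ev x p.1 p.2 (ep j)).im) p

theorem Fj_meas {ev : (Zd d → ℝ) → UG (L2 (Zd d))} (hev : ∀ V, IsGrp (-1) V (ev V)) (x : Zd d)
    {B : Set ((Zd d → ℝ) × ℝ)} (hB : IsOpen B) (j : ℕ) : Measurable (Fj ev x B j) := by
  unfold Fj
  refine Measurable.indicator ?_ hB.measurableSet
  have h1 : Continuous fun p : (Zd d → ℝ) × ℝ => Gn ev x p.1 p.2 (ep j) :=
    t_LCT d (-1) ev hev (ep j) (ep_pos j) x x
  exact ENNReal.measurable_ofReal.comp (Complex.continuous_im.comp h1).measurable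

/-- averaging over the potential at `x` -/
theorem avg_site {ev : (Zd d → ℝ) → UG (L2 (Zd d))} (hev : ∀ V, IsGrp (-1) V (ev V)) (x : Zd d)
    {ν : Measure ℝ} {C : ℝ≥0} (hν : ν ≤ C • volume) (V : Zd d → ℝ) (E : ℝ) {ε : ℝ}
    (hε : 0 < ε) :
    ∫⁻ s, ENNReal.ofReal (Gn ev x (Function.update V x s) E ε).im ∂ν ≤ 4 * C := by
  obtain ⟨a, b, hb, h⟩ := rank_one hev x V E hε
  simp_rw [h]
  calc ∫⁻ s, ENNReal.ofReal (b / ((s + a) ^ 2 + b ^ 2)) ∂ν
      ≤ ∫⁻ s, ENNReal.ofReal (b / ((s + a) ^ 2 + b ^ 2)) ∂(C • (volume : Measure ℝ)) :=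
        lintegral_mono' hν le_rfl
    _ = C * ∫⁻ s, ENNReal.ofReal (b / ((s + a) ^ 2 + b ^ 2)) := by
        rw [lintegral_smul_measure]
        rfl
    _ ≤ C * 4 := by gcongr; exact cauchy_int a hb
    _ = 4 * C := mul_comm _ _

theorem avg_E {ev : (Zd d → ℝ) → UG (L2 (Zd d))} (hev : ∀ V, IsGrp (-1) V (ev V)) (x : Zd d)
    {ν : Measure ℝ} [IsProbabilityMeasure ν] {C : ℝ≥0} (hν : ν ≤ C • volume)
    {B : Set ((Zd d → ℝ) × ℝ)} (hB : IsOpen B)
    (hx : ∀ V s E, (V, E) ∈ B → (Function.update V x s, E) ∈ B) (j : ℕ) (E : ℝ) :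
    ∫⁻ V, Fj ev x B j (V, E) ∂(PP d ν) ≤ 4 * C * (PP d ν) ((fun V => (V, E)) ⁻¹' B) := by
  have : IsProbabilityMeasure (PP d ν) := by unfold PP; infer_instance
  have hm : Measurable fun V : Zd d → ℝ => Fj ev x B j (V, E) :=
    (Fj_meas hev x hB j).comp (measurable_id.prodMk measurable_const)
  rw [← (resample x ν).lintegral_comp hm]
  have hm2 : Measurable fun p : (Zd d → ℝ) × ℝ => Fj ev x B j (Function.update p.1 x p.2, E) :=
    hm.comp (meas_update x)
  rw [lintegral_prod _ hm2.aemeasurable]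
  have hiff : ∀ V s, (Function.update V x s, E) ∈ B ↔ (V, E) ∈ B := by
    intro V s
    constructor
    · intro h
      have h1 := hx _ (V x) E h
      rwa [Function.update_idem, Function.update_eq_self] at h1
    · exact hx V s E
  have hS : MeasurableSet ((fun V : Zd d → ℝ => (V, E)) ⁻¹' B) :=
    (hB.preimage (by fun_prop)).measurableSet
  calc ∫⁻ V, ∫⁻ s, Fj ev x B j (Function.update V x s, E) ∂ν ∂(PP d ν)
      ≤ ∫⁻ V, ((fun V : Zd d → ℝ => (V, E)) ⁻¹' B).indicator (fun _ => 4 * (C : ℝ≥0∞)) V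
          ∂(PP d ν) := by
        refine lintegral_mono fun V => ?_
        by_cases hV : (V, E) ∈ B
        · rw [Set.indicator_of_mem (show V ∈ (fun V : Zd d → ℝ => (V, E)) ⁻¹' B from hV)]
          refine le_trans (lintegral_mono fun s => ?_) (avg_site hev x hν V E (ep_pos j))
          unfold Fj
          exact Set.indicator_le_self _ _ _
        · rw [Set.indicator_of_notMem (show V ∉ (fun V : Zd d → ℝ => (V, E)) ⁻¹' B from hV)]
          refine le_of_eq ?_
          have : ∀ s, Fj ev x B j (Function.update V x s, E) = 0 := by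
            intro s
            unfold Fj
            exact Set.indicator_of_notMem (fun h => hV ((hiff V s).1 h)) _
          simp [this]
    _ = 4 * C * (PP d ν) ((fun V => (V, E)) ⁻¹' B) := lintegral_indicator_const hS _

end Pool.Agent.Helper18.Tg.Avg

namespace Pool.Agent.Helper18.Tg

open Pool.Agent.H4R2.LO (Zd dd bx Hg L2f IsSpec PolyB IsGen)
open Pool.Agent.H5R2.NB (UG L2 dl IsGrp PP)
open Pool.Agent.Helper28.Tg
open Avg

/-- AVG: spectral averaging -/
theorem t_AVG : St_AVG := by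
  intro d ν _ C hν x B hB hx
  have hEX : Pool.Agent.H5R2.NB.St_EX :=
    Pool.Agent.H5R2.NB.t_EX Pool.Agent.H5R2.NB.t_EXA Pool.Agent.H5R2.NB.t_OPS
  choose ev hev using hEX d (-1)
  have : IsProbabilityMeasure (PP d ν) := by unfold PP; infer_instance
  refine ⟨fun V => liminf (fun j : ℕ => ∫⁻ E, Fj ev x B j (V, E)) atTop, ?_, ?_, ?_⟩
  · exact Measurable.liminf fun j => (Fj_meas hev x hB j).lintegral_prod_right'
  · refine (lintegral_liminf_le fun j => (Fj_meas hev x hB j).lintegral_prod_right').trans ?_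
    refine Filter.liminf_le_of_frequently_le' (Eventually.frequently
      (Eventually.of_forall fun j => ?_))
    rw [lintegral_lintegral_swap (f := fun V E => Fj ev x B j (V, E))
      (Fj_meas hev x hB j).aemeasurable]
    rw [Measure.prod_apply_symm hB.measurableSet,
      ← lintegral_const_mul _ (measurable_measure_prodMk_right hB.measurableSet)]
    exact lintegral_mono fun E => avg_E hev x hν hB hx j E
  · intro V m hm
    have hfin : IsFiniteMeasure m := hm.1
    set U : Set ℝ := {E | (V, E) ∈ B} with hU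
    have hUo : IsOpen U := hB.preimage (by fun_prop : Continuous fun E : ℝ => (V, E))
    have hker : ∀ j : ℕ, Measurable fun p : ℝ × ℝ =>
        ENNReal.ofReal (ep j / ((p.2 - p.1) ^ 2 + ep j ^ 2)) := by
      intro j
      fun_prop
    have hval : ∀ j : ℕ, ∫⁻ E, Fj ev x B j (V, E) =
        ∫⁻ t, (∫⁻ E in U, ENNReal.ofReal (ep j / ((t - E) ^ 2 + ep j ^ 2))) ∂m := by
      intro j
      have h1 : ∀ E, Fj ev x B j (V, E) =
          U.indicator (fun E => ∫⁻ t, ENNReal.ofReal (ep j / ((t - E) ^ 2 + ep j ^ 2)) ∂m) E := by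
        intro E
        unfold Fj
        by_cases hE : (V, E) ∈ B
        · rw [Set.indicator_of_mem hE, Set.indicator_of_mem (show E ∈ U from hE)]
          exact stieltjes hev x V m hm E (ep_pos j)
        · rw [Set.indicator_of_notMem hE, Set.indicator_of_notMem (show E ∉ U from hE)]
      simp_rw [h1]
      rw [lintegral_indicator hUo.measurableSet]
      exact lintegral_lintegral_swap (μ := volume.restrict U) (ν := m)
        (f := fun E t => ENNReal.ofReal (ep j / ((t - E) ^ 2 + ep j ^ 2))) (hker j).aemeasurable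
    simp_rw [hval]
    have hmm : ∀ j : ℕ, Measurable fun t : ℝ =>
        ∫⁻ E in U, ENNReal.ofReal (ep j / ((t - E) ^ 2 + ep j ^ 2)) := by
      intro j
      have : Measurable fun p : ℝ × ℝ =>
        ENNReal.ofReal (ep j / ((p.1 - p.2) ^ 2 + ep j ^ 2)) := by fun_prop
      exact this.lintegral_prod_right'
    refine le_trans ?_ (lintegral_liminf_le hmm)
    calc m U = ∫⁻ t, U.indicator 1 t ∂m := (lintegral_indicator_one hUo.measurableSet).symm
      _ ≤ _ := by
        refine lintegral_mono fun t => ?_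
        by_cases ht : t ∈ U
        · rw [Set.indicator_of_mem ht]
          obtain ⟨r, hr, hball⟩ := Metric.isOpen_iff.1 hUo t ht
          refine Filter.le_liminf_of_le (by isBoundedDefault) ?_
          exact (ep_lim hr).mono fun j hj => kernel_ge hball (ep_pos j) hj
        · rw [Set.indicator_of_notMem ht]
          exact bot_le

end Pool.Agent.Helper18.Tg
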