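import Pool.Agent.Helper18.Tg.Gef
import Pool.Agent.Helper28.Tg.Defs2
import Pool.Agent.Helper28.Tg.Lap
import Pool.Graph.R_seed8.H5R2.NB.UN
import Pool.Graph.R_seed8.H5R2.NB.OPS

/-! # The eigenfunction correlator (part COR) -/

set_option autoImplicit false

open MeasureTheory Filter Topology
open scoped BigOperators ENNReal NNReal InnerProductSpace ComplexConjugate

namespace Pool.Agent.Helper18.Tg.Cor

open Pool.Agent.H4R2.LO (Zd dd bx Hg L2f IsSpec PolyB IsGen)
open Pool.Agent.H5R2.NB (UG L2 dl IsGrp PP)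
open Pool.Agent.Helper28.Tg

variable {d : ℕ}

/-- `ψ` is an eigenvector -/
def Eg (V : Zd d → ℝ) (E : ℝ) (ψ : L2 (Zd d)) : Prop :=
  ∀ x, Hg (-1) V (fun y => ψ y) x = (E : ℂ) * ψ x

/-- the eigenspace -/
noncomputable def Es (V : Zd d → ℝ) (E : ℝ) : Submodule ℂ (L2 (Zd d)) where
  carrier := {ψ | Eg V E ψ}
  zero_mem' := by
    intro x
    simp [Hg]
  add_mem' := by
    intro a b ha hb x
    have h1 := ha x
    have h2 := hb x
    unfold Hg at h1 h2 ⊢
    simp only [lp.coeFn_add, Pi.add_apply, mul_add]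
    rw [← h1, ← h2]
    have e : ∑ i : Fin d, (a (x + Pi.single i 1) + b (x + Pi.single i 1) +
        (a (x - Pi.single i 1) + b (x - Pi.single i 1))) =
        ∑ i : Fin d, (a (x + Pi.single i 1) + a (x - Pi.single i 1)) +
        ∑ i : Fin d, (b (x + Pi.single i 1) + b (x - Pi.single i 1)) := by
      rw [← Finset.sum_add_distrib]
      exact Finset.sum_congr rfl fun i _ => by ring
    rw [e]
    ring
  smul_mem' := by
    intro c a ha x
    have h1 := ha x
    unfold Hg at h1 ⊢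
    simp only [lp.coeFn_smul, Pi.smul_apply, smul_eq_mul]
    have e : ∑ i : Fin d, (c * a (x + Pi.single i 1) + c * a (x - Pi.single i 1)) =
        c * ∑ i : Fin d, (a (x + Pi.single i 1) + a (x - Pi.single i 1)) := by
      rw [Finset.mul_sum]
      exact Finset.sum_congr rfl fun i _ => by ring
    rw [e]
    linear_combination c * h1

theorem mem_Es {V : Zd d → ℝ} {E : ℝ} {ψ : L2 (Zd d)} : ψ ∈ Es V E ↔ Eg V E ψ := Iff.rfl

theorem coord (x : Zd d) (ψ : L2 (Zd d)) : ⟪(dl x : L2 (Zd d)), ψ⟫_ℂ = ψ x := by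
  unfold dl
  rw [lp.inner_single_left]
  simp

theorem Es_closed (V : Zd d → ℝ) (E : ℝ) : IsClosed (Es V E : Set (L2 (Zd d))) := by
  have h : (Es V E : Set (L2 (Zd d))) =
      ⋂ x : Zd d, {ψ | Hg (-1) V (fun y => ψ y) x = (E : ℂ) * ψ x} := by
    ext ψ
    simp only [Set.mem_iInter, Set.mem_ofPred_eq]
    exact Iff.rfl
  rw [h]
  have hc : ∀ y : Zd d, Continuous fun ψ : L2 (Zd d) => ψ y := fun y => (Lap.ev y).continuous
  refine isClosed_iInter fun x => isClosed_eq ?_ (continuous_const.mul (hc x))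
  unfold Hg
  refine Continuous.add (continuous_const.mul ?_) (continuous_const.mul (hc x))
  exact continuous_finsetSum _ fun i _ => (hc _).add (hc _)

/-- the group acts on eigenvectors -/
theorem grp_eig {V : Zd d → ℝ} {W : UG (L2 (Zd d))} (hW : IsGrp (-1) V W) {E : ℝ}
    {ψ : L2 (Zd d)} (h : Eg V E ψ) (t : ℝ) :
    W.U t ψ = Complex.exp (-Complex.I * E * t) • ψ := by
  have hUN := Pool.Agent.H5R2.NB.t_UN Pool.Agent.H5R2.NB.t_OPS d (-1) V W hW
    (fun t : ℝ => Complex.exp (-Complex.I * E * t) • ψ) (fun _ => 0) continuous_const ?_ t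
  · simp only [map_zero, intervalIntegral.integral_zero, add_zero, Complex.ofReal_zero, mul_zero,
      Complex.exp_zero, one_smul] at hUN
    exact hUN.symm
  · constructor
    · intro T
      refine ⟨‖ψ‖, fun t _ => ?_⟩
      rw [norm_smul, Complex.norm_exp]
      simp
    · intro t x
      have h1 : HasDerivAt (fun s : ℝ => Complex.exp (-Complex.I * E * s))
          (Complex.exp (-Complex.I * E * t) * (-Complex.I * E)) t := by
        have h3 : HasDerivAt (fun s : ℝ => -Complex.I * E * (s : ℂ)) (-Complex.I * E * 1) t :=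
          (Complex.ofRealCLM.hasDerivAt (x := t)).const_mul (-Complex.I * E)
        have h4 := h3.cexp
        simpa using h4
      have h2 := h1.mul_const (ψ x)
      have h5 : (fun s : ℝ => (Complex.exp (-Complex.I * E * s) • ψ : L2 (Zd d)) x) =
          fun s : ℝ => Complex.exp (-Complex.I * E * s) * ψ x := by
        funext s
        simp
      rw [h5]
      refine h2.congr_deriv ?_
      have h6 := h x
      unfold Hg at h6
      unfold Pool.Agent.H5R2.NB.hopf
      simp only [lp.coeFn_smul, Pi.smul_apply, smul_eq_mul, lp.coeFn_zero, Pi.zero_apply, add_zero]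
      have e : ∑ i : Fin d, (Complex.exp (-Complex.I * E * t) * ψ (x + Pi.single i 1) +
          Complex.exp (-Complex.I * E * t) * ψ (x - Pi.single i 1)) =
          Complex.exp (-Complex.I * E * t) *
            ∑ i : Fin d, (ψ (x + Pi.single i 1) + ψ (x - Pi.single i 1)) := by
        rw [Finset.mul_sum]
        exact Finset.sum_congr rfl fun i _ => by ring
      rw [e]
      linear_combination (Complex.I * Complex.exp (-Complex.I * E * t)) * h6

/-- the group is unitary -/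
theorem inner_U (W : UG (L2 (Zd d))) (t : ℝ) (a b : L2 (Zd d)) :
    ⟪W.U t a, W.U t b⟫_ℂ = ⟪a, b⟫_ℂ := by
  let J : L2 (Zd d) →ₗᵢ[ℂ] L2 (Zd d) := ⟨(W.U t).toLinearMap, W.norm' t⟩
  exact J.inner_map_map a b

theorem U_neg (W : UG (L2 (Zd d))) (t : ℝ) (a : L2 (Zd d)) : W.U t (W.U (-t) a) = a := by
  rw [← W.add', add_neg_cancel, W.zero']

theorem inner_U' (W : UG (L2 (Zd d))) (t : ℝ) (a b : L2 (Zd d)) :
    ⟪a, W.U t b⟫_ℂ = ⟪W.U (-t) a, b⟫_ℂ := by
  rw [← inner_U W t (W.U (-t) a) b, U_neg]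

/-- eigenvectors for different eigenvalues are orthogonal -/
theorem orth {V : Zd d → ℝ} {W : UG (L2 (Zd d))} (hW : IsGrp (-1) V W) {E E' : ℝ}
    (hne : E ≠ E') {ψ ψ' : L2 (Zd d)} (h : Eg V E ψ) (h' : Eg V E' ψ') : ⟪ψ, ψ'⟫_ℂ = 0 := by
  set t : ℝ := Real.pi / (E - E') with ht
  have hE : E - E' ≠ 0 := sub_ne_zero.2 hne
  have h1 := inner_U W t ψ ψ'
  rw [grp_eig hW h, grp_eig hW h', inner_smul_left, inner_smul_right, ← mul_assoc,
    ← Complex.exp_conj, ← Complex.exp_add] at h1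
  have h2 : (starRingEnd ℂ) (-Complex.I * E * t) + -Complex.I * E' * t = Real.pi * Complex.I := by
    simp only [map_mul, map_neg, Complex.conj_I, Complex.conj_ofReal]
    have h3 : ((E : ℂ) - E') * t = Real.pi := by
      have h4 : (E - E') * t = Real.pi := by
        rw [ht]
        field_simp
      exact_mod_cast h4
    linear_combination Complex.I * h3
  rw [h2, Complex.exp_pi_mul_I] at h1
  have h5 : (2 : ℂ) * ⟪ψ, ψ'⟫_ℂ = 0 := by linear_combination -h1
  simpa using h5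

/-- a total orthogonal family of closed subspaces has an adapted Hilbert basis -/
theorem basis_abs {X : Type} [NormedAddCommGroup X] [InnerProductSpace ℂ X] [CompleteSpace X]
    (G : ℝ → Submodule ℂ X) (hG : ∀ E, IsClosed (G E : Set X))
    (hor : ∀ E E', E ≠ E' → ∀ v ∈ G E, ∀ w ∈ G E', ⟪v, w⟫_ℂ = 0)
    (htot : ∀ φ : X, (∀ E, ∀ v ∈ G E, ⟪v, φ⟫_ℂ = 0) → φ = 0) :
    ∃ (ι : Type) (b : HilbertBasis ι ℂ X) (e : ι → ℝ), ∀ n, b n ∈ G (e n) := by
  have hcomp : ∀ E, CompleteSpace (G E) := fun E => (hG E).completeSpace_coe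
  have hex : ∀ E : ℝ, ∃ (w : Set (G E)) (b : HilbertBasis w ℂ (G E)), ⇑b = Subtype.val :=
    fun E => exists_hilbertBasis ℂ (G E)
  choose w b hb using hex
  have hfam : OrthogonalFamily ℂ (fun E => G E) fun E => (G E).subtypeₗᵢ := by
    intro E E' hne v v'
    exact hor E E' hne v v.2 v' v'.2
  have hon : Orthonormal ℂ fun a : Σ E : ℝ, w E => ((b a.1 a.2 : G a.1) : X) :=
    hfam.orthonormal_sigma_orthonormal fun E => (b E).orthonormal
  have hbot : (Submodule.span ℂ (Set.range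
      fun a : Σ E : ℝ, w E => ((b a.1 a.2 : G a.1) : X)))ᗮ = ⊥ := by
    rw [eq_bot_iff]
    intro φ hφ
    rw [Submodule.mem_bot]
    refine htot φ fun E ψ hψ => ?_
    -- the functional `⟪·, φ⟫` vanishes on the subspace
    have h1 : ∀ v : G E, ⟪φ, (v : X)⟫_ℂ = 0 := by
      intro v
      have h2 := (b E).hasSum_repr v
      have h3 := ((innerSL ℂ φ).comp (G E).subtypeL).hasSum h2
      have h4 : ∀ i : w E, ((innerSL ℂ φ).comp (G E).subtypeL) ((b E).repr v i • b E i) = 0 := by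
        intro i
        rw [map_smul]
        have h5 : ((innerSL ℂ φ).comp (G E).subtypeL) (b E i) = 0 := by
          show ⟪φ, ((b E i : G E) : X)⟫_ℂ = 0
          have h8 : ((b E i : G E) : X) ∈ Submodule.span ℂ (Set.range
              fun a : Σ E : ℝ, w E => ((b a.1 a.2 : G a.1) : X)) :=
            Submodule.subset_span (Set.mem_range_self (⟨E, i⟩ : Σ E : ℝ, w E))
          exact Submodule.inner_left_of_mem_orthogonal h8 hφ
        rw [h5, smul_zero]
      have h6 : HasSum (fun i : w E => ((innerSL ℂ φ).comp (G E).subtypeL)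
          ((b E).repr v i • b E i)) 0 := by
        simp_rw [h4]
        exact hasSum_zero
      exact h3.unique h6
    have h7 : ⟪φ, ψ⟫_ℂ = 0 := h1 (Subtype.mk ψ hψ)
    rw [← inner_conj_symm, h7, map_zero]
  refine ⟨(Σ E : ℝ, w E), HilbertBasis.mkOfOrthogonalEqBot hon hbot, fun a => a.1, fun a => ?_⟩
  rw [HilbertBasis.coe_mkOfOrthogonalEqBot]
  exact (b a.1 a.2).2

/-- total eigenvectors give a Hilbert basis of eigenvectors -/
theorem exists_basis {V : Zd d → ℝ} {W : UG (L2 (Zd d))} (hW : IsGrp (-1) V W)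
    (htot : ∀ φ : L2 (Zd d), (∀ (E : ℝ) (ψ : L2 (Zd d)),
      (∀ x, Hg (-1) V (fun y => ψ y) x = (E : ℂ) * ψ x) → ⟪ψ, φ⟫_ℂ = 0) → φ = 0) :
    ∃ (ι : Type) (b : HilbertBasis ι ℂ (L2 (Zd d))) (e : ι → ℝ), ∀ n, Eg V (e n) (b n) :=
  basis_abs (Es V) (Es_closed V) (fun _ _ hne _ h _ h' => orth hW hne h h')
    fun φ h => htot φ fun E ψ hψ => h E ψ hψ

/-- energies of eigenvectors are bounded -/
theorem energy_le {V : Zd d → ℝ} {K : ℝ} (hK : ∀ x, |V x| ≤ K) {E : ℝ} {ψ : L2 (Zd d)}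
    (h : Eg V E ψ) (h0 : ψ ≠ 0) : |E| ≤ 2 * d + K := by
  have hbd : BddAbove (Set.range fun x : Zd d => ‖ψ x‖) := by
    refine ⟨‖ψ‖, ?_⟩
    rintro _ ⟨x, rfl⟩
    exact lp.norm_apply_le_norm (by norm_num : (2 : ℝ≥0∞) ≠ 0) ψ x
  set S : ℝ := ⨆ x : Zd d, ‖ψ x‖ with hS
  have hle : ∀ x, ‖ψ x‖ ≤ S := fun x => le_ciSup hbd x
  have hK0 : 0 ≤ K := (abs_nonneg _).trans (hK 0)
  have hpos : 0 < S := by
    by_contra hcon
    push Not at hcon
    apply h0
    ext x
    have h1 : ‖ψ x‖ ≤ 0 := (hle x).trans hcon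
    simpa using norm_le_zero_iff.1 h1
  have h2 : ∀ x, |E| * ‖ψ x‖ ≤ (2 * d + K) * S := by
    intro x
    have h3 := h x
    have h4 : ‖(E : ℂ) * ψ x‖ = |E| * ‖ψ x‖ := by
      rw [norm_mul, Complex.norm_real, Real.norm_eq_abs]
    rw [← h4, ← h3]
    unfold Hg
    have h5 : ‖∑ i : Fin d, (ψ (x + Pi.single i 1) + ψ (x - Pi.single i 1))‖ ≤ 2 * d * S := by
      refine (norm_sum_le _ _).trans ?_
      calc ∑ i : Fin d, ‖ψ (x + Pi.single i 1) + ψ (x - Pi.single i 1)‖
          ≤ ∑ _i : Fin d, (S + S) :=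
            Finset.sum_le_sum fun i _ => (norm_add_le _ _).trans (add_le_add (hle _) (hle _))
        _ = 2 * d * S := by
            rw [Finset.sum_const, Finset.card_univ, Fintype.card_fin, nsmul_eq_mul]
            ring
    calc ‖((-1 : ℝ) : ℂ) * ∑ i : Fin d, (ψ (x + Pi.single i 1) + ψ (x - Pi.single i 1)) +
          (V x : ℂ) * ψ x‖
        ≤ ‖((-1 : ℝ) : ℂ) * ∑ i : Fin d, (ψ (x + Pi.single i 1) + ψ (x - Pi.single i 1))‖ +
          ‖(V x : ℂ) * ψ x‖ := norm_add_le _ _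
      _ ≤ 2 * d * S + K * S := by
          refine add_le_add ?_ ?_
          · rw [norm_mul, Complex.norm_real]
            simpa using h5
          · rw [norm_mul, Complex.norm_real, Real.norm_eq_abs]
            exact mul_le_mul (hK x) (hle x) (norm_nonneg _) hK0
      _ = (2 * d + K) * S := by ring
  by_contra hcon
  push Not at hcon
  have hE : 0 < |E| := lt_of_le_of_lt (by positivity) hcon
  have h6 : S ≤ (2 * d + K) * S / |E| := by
    refine ciSup_le fun x => ?_
    rw [le_div_iff₀ hE, mul_comm]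
    exact h2 x
  rw [le_div_iff₀ hE] at h6
  nlinarith

/-- good boxes bound eigenvectors -/
theorem good_le {V : Zd d → ℝ} {E : ℝ} {ψ : L2 (Zd d)} (h : Eg V E ψ) {x : Zd d} {l : ℕ} {η : ℝ}
    (hg : Dc x l η E V) : ‖ψ x‖ ≤ 2 * η * ∑ w ∈ bx x (l + 1), ‖ψ w‖ := by
  set b : ℝ := ∑ w ∈ bx x (l + 1), ‖ψ w‖ with hb
  have hmem : ∀ w, dd x w ≤ l + 1 → w ∈ bx x (l + 1) := by
    intro w hw
    unfold bx
    rw [Fintype.mem_piFinset]
    intro i
    have h1 := (dd_le.1 hw) i
    rw [Finset.mem_Icc]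
    push_cast at h1 ⊢
    omega
  have hw : ∀ w, dd x w ≤ l + 1 → ‖ψ w‖ ≤ b := fun w hw =>
    Finset.single_le_sum (f := fun w => ‖ψ w‖) (fun _ _ => norm_nonneg _) (hmem w hw)
  have h0 : 2 * dd x x ≤ l := by
    have : dd x x = 0 := by
      have := dd_le (x := x) (y := x) (l := 0)
      simpa using this
    omega
  have hre : |(ψ x).re| ≤ η * b :=
    hg (fun z => (ψ z).re) (fun z _ => re_eq V E (fun z => ψ z) h z) b
      (fun w hw' => (Complex.abs_re_le_norm _).trans (hw w hw')) x h0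
  have him : |(ψ x).im| ≤ η * b :=
    hg (fun z => (ψ z).im) (fun z _ => im_eq V E (fun z => ψ z) h z) b
      (fun w hw' => (Complex.abs_im_le_norm _).trans (hw w hw')) x h0
  have := Complex.norm_le_abs_re_add_abs_im (ψ x)
  linarith

theorem card_bx (x : Zd d) (l : ℕ) : ((bx x (l + 1)).card : ℝ) = (2 * l + 3 : ℝ) ^ d := by
  unfold bx
  rw [Fintype.card_piFinset]
  have : ∀ i : Fin d, (Finset.Icc (x i - ((l + 1 : ℕ) : ℤ)) (x i + ((l + 1 : ℕ) : ℤ))).card =
      2 * l + 3 := by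
    intro i
    rw [Int.card_Icc]
    omega
  rw [Finset.prod_congr rfl fun i _ => this i]
  simp

end Pool.Agent.Helper18.Tg.Cor

namespace Pool.Agent.Helper18.Tg

open Pool.Agent.H4R2.LO (Zd dd bx Hg L2f IsSpec PolyB IsGen)
open Pool.Agent.H5R2.NB (UG L2 dl IsGrp PP)
open Pool.Agent.Helper28.Tg
open Cor

/-- COR: the eigenfunction correlator -/
theorem t_COR : St_COR := by
  intro d V K hK htot W hW x y l η hη hgood t
  obtain ⟨ι, b, e, he⟩ := exists_basis hW htot
  have hnz : ∀ n, b n ≠ 0 := fun n => b.orthonormal.ne_zero n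
  set a : ι → Zd d → ℝ := fun n w => ‖(b n) w‖ with ha
  have ha0 : ∀ n w, 0 ≤ a n w := fun n w => norm_nonneg _
  -- square sums
  have hsq : ∀ w : Zd d, Summable (fun n => a n w ^ 2) ∧ ∑' n, a n w ^ 2 ≤ 1 := by
    intro w
    have e1 : ∀ n, ‖⟪b n, (dl w : L2 (Zd d))⟫_ℂ‖ = a n w := by
      intro n
      rw [← inner_conj_symm, RCLike.norm_conj, coord]
    have h1 := b.orthonormal.inner_products_summable (dl w : L2 (Zd d))
    have h2 := b.orthonormal.tsum_inner_products_le (dl w : L2 (Zd d))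
    simp_rw [e1] at h1 h2
    rw [Lap.dl_norm, one_pow] at h2
    exact ⟨h1, h2⟩
  -- the matrix element
  have hU : HasSum (fun n => ⟪(dl x : L2 (Zd d)), b n⟫_ℂ * ⟪b n, W.U t (dl y)⟫_ℂ)
      ((W.U t (dl y)) x) := by
    have := b.hasSum_inner_mul_inner (dl x : L2 (Zd d)) (W.U t (dl y))
    rwa [coord] at this
  have hterm : ∀ n, ‖⟪(dl x : L2 (Zd d)), b n⟫_ℂ * ⟪b n, W.U t (dl y)⟫_ℂ‖ = a n x * a n y := by
    intro n
    rw [norm_mul, coord, inner_U', grp_eig hW (he n), inner_smul_left, norm_mul,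
      ← inner_conj_symm, RCLike.norm_conj, coord, RCLike.norm_conj, Complex.norm_exp]
    simp [ha]
  set g : ι → ℝ := fun n => 2 * η * (∑ w ∈ bx x (l + 1), (a n w ^ 2 + a n y ^ 2) / 2 +
    ∑ w ∈ bx y (l + 1), (a n w ^ 2 + a n x ^ 2) / 2) with hg
  have hgs : HasSum g (2 * η * (∑ w ∈ bx x (l + 1), (∑' n, a n w ^ 2 + ∑' n, a n y ^ 2) / 2 +
    ∑ w ∈ bx y (l + 1), (∑' n, a n w ^ 2 + ∑' n, a n x ^ 2) / 2)) := by
    refine HasSum.mul_left _ (HasSum.add ?_ ?_)
    · exact hasSum_sum fun w _ => ((hsq w).1.hasSum.add (hsq y).1.hasSum).div_const 2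
    · exact hasSum_sum fun w _ => ((hsq w).1.hasSum.add (hsq x).1.hasSum).div_const 2
  have hle : ∀ n, ‖⟪(dl x : L2 (Zd d)), b n⟫_ℂ * ⟪b n, W.U t (dl y)⟫_ℂ‖ ≤ g n := by
    intro n
    rw [hterm]
    have hA : ∀ (u v : Zd d), Dc u l η (e n) V →
        a n u * a n v ≤ 2 * η * ∑ w ∈ bx u (l + 1), (a n w ^ 2 + a n v ^ 2) / 2 := by
      intro u v hD
      have h1 := good_le (he n) hD
      calc a n u * a n v ≤ (2 * η * ∑ w ∈ bx u (l + 1), a n w) * a n v :=
            mul_le_mul_of_nonneg_right h1 (ha0 n v)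
        _ = 2 * η * ∑ w ∈ bx u (l + 1), a n w * a n v := by
            rw [mul_assoc, Finset.sum_mul]
        _ ≤ _ := by
            refine mul_le_mul_of_nonneg_left (Finset.sum_le_sum fun w _ => ?_) (by positivity)
            nlinarith [sq_nonneg (a n w - a n v)]
    have hp : ∀ (u v : Zd d), 0 ≤ 2 * η * ∑ w ∈ bx u (l + 1), (a n w ^ 2 + a n v ^ 2) / 2 :=
      fun u v => mul_nonneg (by positivity) (Finset.sum_nonneg fun w _ => by positivity)
    rcases hgood (e n) (energy_le hK (he n) (hnz n)) with h | h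
    · have h1 := hA x y h
      have h2 := hp y x
      simp only [hg, mul_add]
      linarith
    · have h1 := hA y x h
      have h2 := hp x y
      simp only [hg, mul_add]
      linarith
  have hfin : ‖(W.U t (dl y)) x‖ ≤ 2 * η * (∑ w ∈ bx x (l + 1),
      (∑' n, a n w ^ 2 + ∑' n, a n y ^ 2) / 2 +
      ∑ w ∈ bx y (l + 1), (∑' n, a n w ^ 2 + ∑' n, a n x ^ 2) / 2) :=
    hU.tsum_eq ▸ tsum_of_norm_bounded hgs hle
  refine hfin.trans ?_
  have hB : ∀ u v : Zd d, ∑ w ∈ bx u (l + 1), (∑' n, a n w ^ 2 + ∑' n, a n v ^ 2) / 2 ≤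
      (2 * l + 3 : ℝ) ^ d := by
    intro u v
    rw [← card_bx u l]
    refine (Finset.sum_le_card_nsmul _ _ 1 fun w _ => ?_).trans (by simp)
    linarith [(hsq w).2, (hsq v).2]
  have h1 := hB x y
  have h2 := hB y x
  nlinarith

end Pool.Agent.Helper18.Tg
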