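import Pool.Agent.Helper18.Tg.Dyn
import Pool.Agent.Helper28.Tg.Defs3

/-! # The energy-resolved eigenfunction correlator (parts CRJ and DYJ) -/

set_option autoImplicit false

open MeasureTheory Filter Topology
open scoped BigOperators ENNReal NNReal InnerProductSpace ComplexConjugate

namespace Pool.Agent.Helper18.Tg

open Pool.Agent.H4R2.LO (Zd dd bx Hg L2f IsSpec PolyB IsGen)
open Pool.Agent.H5R2.NB (UG L2 dl IsGrp PP)
open Pool.Agent.Helper28.Tg

namespace Crj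

variable {d : ℕ}

theorem bessel {n : ℕ} {b : Fin n → L2 (Zd d)} (hb : Orthonormal ℂ b) (w : Zd d) :
    ∑ i, ‖b i w‖ ^ 2 ≤ 1 := by
  have h1 := hb.sum_inner_products_le (dl w : L2 (Zd d)) (s := Finset.univ)
  rw [Lap.dl_norm, one_pow] at h1
  refine le_trans (le_of_eq (Finset.sum_congr rfl fun i _ => ?_)) h1
  rw [← inner_conj_symm, RCLike.norm_conj, Cor.coord]

theorem enorm_sum {n : ℕ} (b : Fin n → L2 (Zd d)) (x y : Zd d) :
    ∑ i, ‖b i x‖ₑ * ‖b i y‖ₑ = ENNReal.ofReal (∑ i, ‖b i x‖ * ‖b i y‖) := by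
  rw [ENNReal.ofReal_sum_of_nonneg fun i _ => by positivity]
  refine Finset.sum_congr rfl fun i _ => ?_
  rw [ENNReal.ofReal_mul (norm_nonneg _), ofReal_norm, ofReal_norm]

theorem corr_le_one (V : Zd d → ℝ) (J : Set ℝ) (x y : Zd d) : corr V J x y ≤ 1 := by
  unfold corr
  refine iSup_le fun n => iSup_le fun b => iSup_le fun hb => ?_
  rw [enorm_sum]
  refine ENNReal.ofReal_le_one.2 ?_
  have h1 := bessel hb.1 x
  have h2 := bessel hb.1 y
  calc ∑ i, ‖b i x‖ * ‖b i y‖ ≤ ∑ i, (‖b i x‖ ^ 2 + ‖b i y‖ ^ 2) / 2 :=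
        Finset.sum_le_sum fun i _ => by nlinarith [sq_nonneg (‖b i x‖ - ‖b i y‖)]
    _ = (∑ i, ‖b i x‖ ^ 2 + ∑ i, ‖b i y‖ ^ 2) / 2 := by
        rw [← Finset.sum_add_distrib, Finset.sum_div]
    _ ≤ 1 := by linarith

end Crj

open Crj in
/-- CRJ: deterministic bound of the correlator -/
theorem t_CRJ : St_CRJ := by
  intro d V J x y l η hη hgood
  unfold corr
  refine iSup_le fun n => iSup_le fun b => iSup_le fun hb => ?_
  rw [enorm_sum]
  refine ENNReal.ofReal_le_ofReal ?_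
  obtain ⟨hon, hev⟩ := hb
  choose e heJ he using hev
  set a : Fin n → Zd d → ℝ := fun i w => ‖(b i) w‖ with ha
  have ha0 : ∀ i w, 0 ≤ a i w := fun i w => norm_nonneg _
  have hsq : ∀ w : Zd d, ∑ i, a i w ^ 2 ≤ 1 := fun w => bessel hon w
  have hle : ∀ i, a i x * a i y ≤ 2 * η * (∑ w ∈ bx x (l + 1), (a i w ^ 2 + a i y ^ 2) / 2 +
      ∑ w ∈ bx y (l + 1), (a i w ^ 2 + a i x ^ 2) / 2) := by
    intro i
    have hA : ∀ (u v : Zd d), Dc u l η (e i) V →
        a i u * a i v ≤ 2 * η * ∑ w ∈ bx u (l + 1), (a i w ^ 2 + a i v ^ 2) / 2 := by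
      intro u v hD
      have h1 := Cor.good_le (he i) hD
      calc a i u * a i v ≤ (2 * η * ∑ w ∈ bx u (l + 1), a i w) * a i v :=
            mul_le_mul_of_nonneg_right h1 (ha0 i v)
        _ = 2 * η * ∑ w ∈ bx u (l + 1), a i w * a i v := by
            rw [mul_assoc, Finset.sum_mul]
        _ ≤ _ := by
            refine mul_le_mul_of_nonneg_left (Finset.sum_le_sum fun w _ => ?_) (by positivity)
            nlinarith [sq_nonneg (a i w - a i v)]
    have hp : ∀ (u v : Zd d), 0 ≤ 2 * η * ∑ w ∈ bx u (l + 1), (a i w ^ 2 + a i v ^ 2) / 2 :=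
      fun u v => mul_nonneg (by positivity) (Finset.sum_nonneg fun w _ => by positivity)
    rcases hgood (e i) (heJ i) with h | h
    · have h1 := hA x y h
      have h2 := hp y x
      rw [mul_add]
      linarith
    · have h1 := hA y x h
      have h2 := hp x y
      rw [mul_add]
      linarith
  have hB : ∀ u v : Zd d, ∑ w ∈ bx u (l + 1), (∑ i, a i w ^ 2 + ∑ i, a i v ^ 2) / 2 ≤
      (2 * l + 3 : ℝ) ^ d := by
    intro u v
    rw [← Cor.card_bx u l]
    refine (Finset.sum_le_card_nsmul _ _ 1 fun w _ => ?_).trans (by simp)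
    linarith [hsq w, hsq v]
  have hex : ∀ u v : Zd d, ∑ i, ∑ w ∈ bx u (l + 1), (a i w ^ 2 + a i v ^ 2) / 2 =
      ∑ w ∈ bx u (l + 1), (∑ i, a i w ^ 2 + ∑ i, a i v ^ 2) / 2 := by
    intro u v
    rw [Finset.sum_comm]
    refine Finset.sum_congr rfl fun w _ => ?_
    rw [← Finset.sum_add_distrib, Finset.sum_div]
  calc ∑ i, ‖b i x‖ * ‖b i y‖
      ≤ ∑ i, 2 * η * (∑ w ∈ bx x (l + 1), (a i w ^ 2 + a i y ^ 2) / 2 +
        ∑ w ∈ bx y (l + 1), (a i w ^ 2 + a i x ^ 2) / 2) := Finset.sum_le_sum fun i _ => hle i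
    _ = 2 * η * (∑ w ∈ bx x (l + 1), (∑ i, a i w ^ 2 + ∑ i, a i y ^ 2) / 2 +
        ∑ w ∈ bx y (l + 1), (∑ i, a i w ^ 2 + ∑ i, a i x ^ 2) / 2) := by
        rw [← Finset.mul_sum, Finset.sum_add_distrib, hex, hex]
    _ ≤ _ := by
        have h1 := hB x y
        have h2 := hB y x
        nlinarith

open Crj in
/-- DYJ: polynomial decay of the mean correlator -/
theorem t_DYJ : St_DYJ := by
  intro d hd ν _ J n h1 h2 P hP
  have : IsProbabilityMeasure (PP d ν) := by unfold PP; infer_instance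
  set R0 : ℕ := 9 * 2 ^ n 0 with hR0
  set A1 : ℝ := (1 + (R0 : ℝ)) ^ ((P : ℝ) / 2) with hA1
  set A2 : ℝ := (1 + 4 * 5 ^ d) * 3 ^ P with hA2
  have hA1p : 0 < A1 := by positivity
  have hA2p : 0 < A2 := by positivity
  refine ⟨A1 + A2, by positivity, fun x y => ?_⟩
  set R : ℕ := dd x y with hR
  have hxR : ‖x - y‖ ≤ (R : ℝ) := by
    have h3 := norm_le_dd (0 : Zd d) (x - y)
    have h4 : dd (0 : Zd d) (x - y) = dd x y := by
      unfold dd
      congr 1
      funext i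
      simp only [Pi.zero_apply, Pi.sub_apply]
      rw [← Int.natAbs_neg]
      congr 1
      ring
    rw [h4] at h3
    simpa using h3
  have hp0 : (0 : ℝ) < 1 + ‖x - y‖ := by positivity
  have hPn : -(P : ℝ) / 2 ≤ 0 := by
    have : (0 : ℝ) ≤ P := Nat.cast_nonneg _
    linarith
  have hmono : (1 + (R : ℝ)) ^ (-(P : ℝ) / 2) ≤ (1 + ‖x - y‖) ^ (-(P : ℝ) / 2) :=
    Real.rpow_le_rpow_of_nonpos hp0 (by linarith) hPn
  by_cases hsm : R < R0
  · -- small distance
    have h3 : (1 : ℝ) ≤ (A1 + A2) * (1 + ‖x - y‖) ^ (-(P : ℝ) / 2) := by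
      have e1 : (1 + (R0 : ℝ)) ^ (-(P : ℝ) / 2) ≤ (1 + ‖x - y‖) ^ (-(P : ℝ) / 2) := by
        refine Real.rpow_le_rpow_of_nonpos hp0 ?_ hPn
        have : (R : ℝ) ≤ R0 := by exact_mod_cast hsm.le
        linarith
      calc (1 : ℝ) = A1 * (1 + (R0 : ℝ)) ^ (-(P : ℝ) / 2) := by
            rw [hA1, ← Real.rpow_add (by positivity)]
            have : (P : ℝ) / 2 + -(P : ℝ) / 2 = 0 := by ring
            rw [this, Real.rpow_zero]
        _ ≤ A1 * (1 + ‖x - y‖) ^ (-(P : ℝ) / 2) := by gcongr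
        _ ≤ _ := by
            have : 0 ≤ (1 + ‖x - y‖) ^ (-(P : ℝ) / 2) := by positivity
            nlinarith
    calc ∫⁻ V, corr V J x y ∂(PP d ν) ≤ ∫⁻ _V, 1 ∂(PP d ν) :=
          lintegral_mono fun V => corr_le_one V J x y
      _ = ENNReal.ofReal 1 := by rw [lintegral_const, measure_univ, mul_one, ENNReal.ofReal_one]
      _ ≤ _ := ENNReal.ofReal_le_ofReal h3
  · push Not at hsm
    obtain ⟨k, -, hk1, hk2⟩ := scale n h1 R 0 hsm
    set L : ℝ := (2 : ℝ) ^ n k with hL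
    have hL1 : 1 ≤ L := one_le_pow₀ (by norm_num)
    have hTwo := hP k x y (by have : 0 < 2 ^ n k := by positivity
                              omega)
    set c : ℝ := 4 * dec (P + d) (n k) * (2 * (2 ^ n k : ℕ) + 3 : ℝ) ^ d with hc
    have hoff : ∀ᵐ V ∂(PP d ν), V ∉ TwoJ x y (2 ^ n k) (dec (P + d) (n k)) J →
        corr V J x y ≤ ENNReal.ofReal c := by
      refine Eventually.of_forall fun V hV3 => ?_
      refine t_CRJ d V J x y (2 ^ n k) (dec (P + d) (n k)) (by unfold dec; positivity)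
        fun E hE => ?_
      by_contra hcon
      push Not at hcon
      exact hV3 ⟨E, hE, hcon.1, hcon.2⟩
    have hpro : pro P (n k) = (L ^ P)⁻¹ := by
      unfold pro
      rw [Real.rpow_neg (by norm_num), hL, ← pow_mul, ← Real.rpow_natCast]
      congr 2
      push_cast
      ring
    have hc2 : c ≤ 4 * 5 ^ d * (L ^ P)⁻¹ := by
      rw [hc]
      unfold dec
      have e1 : ((2 : ℝ) ^ ((P + d) * n k)) = L ^ P * L ^ d := by
        rw [hL, ← pow_add, ← pow_mul, mul_comm]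
      have e2 : (2 * ((2 ^ n k : ℕ) : ℝ) + 3 : ℝ) ≤ 5 * L := by
        push_cast
        rw [← hL]
        linarith
      rw [e1]
      calc 4 * (L ^ P * L ^ d)⁻¹ * (2 * ((2 ^ n k : ℕ) : ℝ) + 3 : ℝ) ^ d
          ≤ 4 * (L ^ P * L ^ d)⁻¹ * (5 * L) ^ d := by gcongr
        _ = 4 * 5 ^ d * (L ^ P)⁻¹ := by
            rw [mul_pow]
            have : L ^ d ≠ 0 := by positivity
            have : L ^ P ≠ 0 := by positivity
            field_simp
    have hfin : (L ^ P)⁻¹ ≤ 3 ^ P * (1 + (R : ℝ)) ^ (-(P : ℝ) / 2) := by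
      have e1 : 1 + R ≤ 9 * 2 ^ (2 * n k) := by
        have : 2 ^ n (k + 1) ≤ 2 ^ (2 * n k) := Nat.pow_le_pow_right (by norm_num) (h2 k)
        omega
      have e2 : (1 + (R : ℝ)) ≤ (3 * L) ^ 2 := by
        have e3 : (1 + (R : ℝ)) ≤ 9 * (2 : ℝ) ^ (2 * n k) := by exact_mod_cast e1
        rw [mul_pow, hL, ← pow_mul, mul_comm (n k) 2]
        linarith
      have e4 : ((3 * L) ^ 2) ^ (-(P : ℝ) / 2) ≤ (1 + (R : ℝ)) ^ (-(P : ℝ) / 2) :=
        Real.rpow_le_rpow_of_nonpos (by positivity) e2 hPn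
      have e5 : ((3 * L) ^ 2) ^ (-(P : ℝ) / 2) = (3 ^ P)⁻¹ * (L ^ P)⁻¹ := by
        rw [← Real.rpow_natCast (3 * L) 2, ← Real.rpow_mul (by positivity)]
        have : ((2 : ℕ) : ℝ) * (-(P : ℝ) / 2) = -(P : ℝ) := by push_cast; ring
        rw [this, Real.rpow_neg (by positivity), Real.rpow_natCast, mul_pow, mul_inv]
      rw [e5] at e4
      have h3P : (0 : ℝ) < 3 ^ P := by positivity
      calc (L ^ P)⁻¹ = 3 ^ P * ((3 ^ P)⁻¹ * (L ^ P)⁻¹) := by
            rw [← mul_assoc, mul_inv_cancel₀ h3P.ne', one_mul]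
        _ ≤ _ := by gcongr
    calc ∫⁻ V, corr V J x y ∂(PP d ν)
        ≤ (PP d ν) (TwoJ x y (2 ^ n k) (dec (P + d) (n k)) J) + ENNReal.ofReal c :=
          lintegral_le_of_set _ _ _ _ (Eventually.of_forall fun V => corr_le_one V J x y) hoff
      _ ≤ ENNReal.ofReal (pro P (n k)) + ENNReal.ofReal c := by gcongr
      _ = ENNReal.ofReal (pro P (n k) + c) := by
          rw [ENNReal.ofReal_add (by rw [hpro]; positivity) (by rw [hc]; unfold dec; positivity)]
      _ ≤ _ := by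
          refine ENNReal.ofReal_le_ofReal ?_
          rw [hpro]
          have e0 : 0 ≤ (1 + ‖x - y‖) ^ (-(P : ℝ) / 2) := by positivity
          calc (L ^ P)⁻¹ + c ≤ (1 + 4 * 5 ^ d) * (L ^ P)⁻¹ := by
                rw [add_mul, one_mul]
                linarith
            _ ≤ (1 + 4 * 5 ^ d) * (3 ^ P * (1 + (R : ℝ)) ^ (-(P : ℝ) / 2)) := by gcongr
            _ = A2 * (1 + (R : ℝ)) ^ (-(P : ℝ) / 2) := by rw [hA2]; ring
            _ ≤ A2 * (1 + ‖x - y‖) ^ (-(P : ℝ) / 2) := by gcongr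
            _ ≤ _ := by nlinarith

end Pool.Agent.Helper18.Tg
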