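import Pool.Agent.Helper18.Tg.Crj
import Pool.Agent.Helper28.Tg.Defs5

/-! # The correlator with a measurable majorant (part DYM) -/

set_option autoImplicit false

open MeasureTheory Filter Topology
open scoped BigOperators ENNReal NNReal InnerProductSpace ComplexConjugate

namespace Pool.Agent.Helper18.Tg

open Pool.Agent.H4R2.LO (Zd dd bx Hg L2f IsSpec PolyB IsGen)
open Pool.Agent.H5R2.NB (UG L2 dl IsGrp PP)
open Pool.Agent.Helper28.Tg

open Crj in
theorem t_DYM : St_DYM := by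
  intro d hd ν _ J n h1 h2 P hP
  have : IsProbabilityMeasure (PP d ν) := by unfold PP; infer_instance
  set R0 : ℕ := 9 * 2 ^ n 0 with hR0
  set A1 : ℝ := (1 + (R0 : ℝ)) ^ ((P : ℝ) / 2) with hA1
  set A2 : ℝ := (1 + 4 * 5 ^ d) * 3 ^ P with hA2
  have hA1p : 0 < A1 := by positivity
  have hA2p : 0 < A2 := by positivity
  refine ⟨A1 + A2, by positivity, fun x y => ?_⟩
  set R : ℕ := dd x y with hR
  have hxR : ‖x - y‖ ≤ (R : ℝ) := by
    have h3 := norm_le_dd (0 : Zd d) (x - y)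
    have h4 : dd (0 : Zd d) (x - y) = dd x y := by
      unfold dd
      congr 1
      funext i
      simp only [Pi.zero_apply, Pi.sub_apply]
      rw [← Int.natAbs_neg]
      congr 1
      ring
    rw [h4] at h3
    simpa using h3
  have hp0 : (0 : ℝ) < 1 + ‖x - y‖ := by positivity
  have hPn : -(P : ℝ) / 2 ≤ 0 := by
    have : (0 : ℝ) ≤ P := Nat.cast_nonneg _
    linarith
  have hmono : (1 + (R : ℝ)) ^ (-(P : ℝ) / 2) ≤ (1 + ‖x - y‖) ^ (-(P : ℝ) / 2) :=
    Real.rpow_le_rpow_of_nonpos hp0 (by linarith) hPn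
  by_cases hsm : R < R0
  · -- small distance
    have h3 : (1 : ℝ) ≤ (A1 + A2) * (1 + ‖x - y‖) ^ (-(P : ℝ) / 2) := by
      have e1 : (1 + (R0 : ℝ)) ^ (-(P : ℝ) / 2) ≤ (1 + ‖x - y‖) ^ (-(P : ℝ) / 2) := by
        refine Real.rpow_le_rpow_of_nonpos hp0 ?_ hPn
        have : (R : ℝ) ≤ R0 := by exact_mod_cast hsm.le
        linarith
      calc (1 : ℝ) = A1 * (1 + (R0 : ℝ)) ^ (-(P : ℝ) / 2) := by
            rw [hA1, ← Real.rpow_add (by positivity)]
            have : (P : ℝ) / 2 + -(P : ℝ) / 2 = 0 := by ring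
            rw [this, Real.rpow_zero]
        _ ≤ A1 * (1 + ‖x - y‖) ^ (-(P : ℝ) / 2) := by gcongr
        _ ≤ _ := by
            have : 0 ≤ (1 + ‖x - y‖) ^ (-(P : ℝ) / 2) := by positivity
            nlinarith
    refine ⟨fun _ => 1, measurable_const, fun V => corr_le_one V J x y, ?_⟩
    calc ∫⁻ _V, (1 : ℝ≥0∞) ∂(PP d ν)
        = ENNReal.ofReal 1 := by rw [lintegral_const, measure_univ, mul_one, ENNReal.ofReal_one]
      _ ≤ _ := ENNReal.ofReal_le_ofReal h3
  · push Not at hsm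
    obtain ⟨k, -, hk1, hk2⟩ := scale n h1 R 0 hsm
    set L : ℝ := (2 : ℝ) ^ n k with hL
    have hL1 : 1 ≤ L := one_le_pow₀ (by norm_num)
    have hTwo := hP k x y (by have : 0 < 2 ^ n k := by positivity
                              omega)
    set c : ℝ := 4 * dec (P + d) (n k) * (2 * (2 ^ n k : ℕ) + 3 : ℝ) ^ d with hc
    have hoff : ∀ V, V ∉ TwoJ x y (2 ^ n k) (dec (P + d) (n k)) J →
        corr V J x y ≤ ENNReal.ofReal c := by
      intro V hV3
      refine t_CRJ d V J x y (2 ^ n k) (dec (P + d) (n k)) (by unfold dec; positivity)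
        fun E hE => ?_
      by_contra hcon
      push Not at hcon
      exact hV3 ⟨E, hE, hcon.1, hcon.2⟩
    have hpro : pro P (n k) = (L ^ P)⁻¹ := by
      unfold pro
      rw [Real.rpow_neg (by norm_num), hL, ← pow_mul, ← Real.rpow_natCast]
      congr 2
      push_cast
      ring
    have hc2 : c ≤ 4 * 5 ^ d * (L ^ P)⁻¹ := by
      rw [hc]
      unfold dec
      have e1 : ((2 : ℝ) ^ ((P + d) * n k)) = L ^ P * L ^ d := by
        rw [hL, ← pow_add, ← pow_mul, mul_comm]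
      have e2 : (2 * ((2 ^ n k : ℕ) : ℝ) + 3 : ℝ) ≤ 5 * L := by
        push_cast
        rw [← hL]
        linarith
      rw [e1]
      calc 4 * (L ^ P * L ^ d)⁻¹ * (2 * ((2 ^ n k : ℕ) : ℝ) + 3 : ℝ) ^ d
          ≤ 4 * (L ^ P * L ^ d)⁻¹ * (5 * L) ^ d := by gcongr
        _ = 4 * 5 ^ d * (L ^ P)⁻¹ := by
            rw [mul_pow]
            have : L ^ d ≠ 0 := by positivity
            have : L ^ P ≠ 0 := by positivity
            field_simp
    have hfin : (L ^ P)⁻¹ ≤ 3 ^ P * (1 + (R : ℝ)) ^ (-(P : ℝ) / 2) := by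
      have e1 : 1 + R ≤ 9 * 2 ^ (2 * n k) := by
        have : 2 ^ n (k + 1) ≤ 2 ^ (2 * n k) := Nat.pow_le_pow_right (by norm_num) (h2 k)
        omega
      have e2 : (1 + (R : ℝ)) ≤ (3 * L) ^ 2 := by
        have e3 : (1 + (R : ℝ)) ≤ 9 * (2 : ℝ) ^ (2 * n k) := by exact_mod_cast e1
        rw [mul_pow, hL, ← pow_mul, mul_comm (n k) 2]
        linarith
      have e4 : ((3 * L) ^ 2) ^ (-(P : ℝ) / 2) ≤ (1 + (R : ℝ)) ^ (-(P : ℝ) / 2) :=
        Real.rpow_le_rpow_of_nonpos (by positivity) e2 hPn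
      have e5 : ((3 * L) ^ 2) ^ (-(P : ℝ) / 2) = (3 ^ P)⁻¹ * (L ^ P)⁻¹ := by
        rw [← Real.rpow_natCast (3 * L) 2, ← Real.rpow_mul (by positivity)]
        have : ((2 : ℕ) : ℝ) * (-(P : ℝ) / 2) = -(P : ℝ) := by push_cast; ring
        rw [this, Real.rpow_neg (by positivity), Real.rpow_natCast, mul_pow, mul_inv]
      rw [e5] at e4
      have h3P : (0 : ℝ) < 3 ^ P := by positivity
      calc (L ^ P)⁻¹ = 3 ^ P * ((3 ^ P)⁻¹ * (L ^ P)⁻¹) := by
            rw [← mul_assoc, mul_inv_cancel₀ h3P.ne', one_mul]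
        _ ≤ _ := by gcongr
    have hTm : MeasurableSet (toMeasurable (PP d ν) (TwoJ x y (2 ^ n k) (dec (P + d) (n k)) J)) :=
      measurableSet_toMeasurable _ _
    refine ⟨fun V => (toMeasurable (PP d ν) (TwoJ x y (2 ^ n k) (dec (P + d) (n k)) J)).indicator
      1 V + ENNReal.ofReal c, (measurable_one.indicator hTm).add_const _, fun V => ?_, ?_⟩
    · beta_reduce
      by_cases hV : V ∈ toMeasurable (PP d ν) (TwoJ x y (2 ^ n k) (dec (P + d) (n k)) J)
      · rw [Set.indicator_of_mem hV, Pi.one_apply]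
        exact (corr_le_one V J x y).trans le_self_add
      · rw [Set.indicator_of_notMem hV, zero_add]
        exact hoff V fun h => hV (subset_toMeasurable _ _ h)
    calc ∫⁻ V, ((toMeasurable (PP d ν) (TwoJ x y (2 ^ n k) (dec (P + d) (n k)) J)).indicator
          1 V + ENNReal.ofReal c) ∂(PP d ν)
        = (PP d ν) (TwoJ x y (2 ^ n k) (dec (P + d) (n k)) J) + ENNReal.ofReal c := by
          rw [lintegral_add_left (measurable_one.indicator hTm), lintegral_indicator_one hTm,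
            measure_toMeasurable, lintegral_const, measure_univ, mul_one]
      _ ≤ ENNReal.ofReal (pro P (n k)) + ENNReal.ofReal c := by gcongr
      _ = ENNReal.ofReal (pro P (n k) + c) := by
          rw [ENNReal.ofReal_add (by rw [hpro]; positivity) (by rw [hc]; unfold dec; positivity)]
      _ ≤ _ := by
          refine ENNReal.ofReal_le_ofReal ?_
          rw [hpro]
          have e0 : 0 ≤ (1 + ‖x - y‖) ^ (-(P : ℝ) / 2) := by positivity
          calc (L ^ P)⁻¹ + c ≤ (1 + 4 * 5 ^ d) * (L ^ P)⁻¹ := by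
                rw [add_mul, one_mul]
                linarith
            _ ≤ (1 + 4 * 5 ^ d) * (3 ^ P * (1 + (R : ℝ)) ^ (-(P : ℝ) / 2)) := by gcongr
            _ = A2 * (1 + (R : ℝ)) ^ (-(P : ℝ) / 2) := by rw [hA2]; ring
            _ ≤ A2 * (1 + ‖x - y‖) ^ (-(P : ℝ) / 2) := by gcongr
            _ ≤ _ := by nlinarith


end Pool.Agent.Helper18.Tg
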