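import Pool.Agent.Helper18.Tg.Cor

/-! # Decay of the matrix elements from two-box estimates (part DYN) -/

set_option autoImplicit false

open MeasureTheory Filter Topology
open scoped BigOperators ENNReal NNReal InnerProductSpace ComplexConjugate

namespace Pool.Agent.Helper18.Tg

open Pool.Agent.H4R2.LO (Zd dd bx Hg L2f IsSpec PolyB IsGen)
open Pool.Agent.H5R2.NB (UG L2 dl IsGrp PP)
open Pool.Agent.Helper28.Tg

theorem lintegral_le_of_set {α : Type*} [MeasurableSpace α] (μ : Measure α)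
    [IsProbabilityMeasure μ] (f : α → ℝ≥0∞) (S : Set α) (c : ℝ≥0∞) (h1 : ∀ᵐ a ∂μ, f a ≤ 1)
    (h2 : ∀ᵐ a ∂μ, a ∉ S → f a ≤ c) : ∫⁻ a, f a ∂μ ≤ μ S + c := by
  calc ∫⁻ a, f a ∂μ ≤ ∫⁻ a, ((toMeasurable μ S).indicator 1 a + c) ∂μ := by
        refine lintegral_mono_ae ?_
        filter_upwards [h1, h2] with a ha hb
        by_cases h : a ∈ toMeasurable μ S
        · rw [Set.indicator_of_mem h]
          exact ha.trans le_self_add
        · rw [Set.indicator_of_notMem h, zero_add]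
          exact hb fun hS => h (subset_toMeasurable μ S hS)
    _ = μ S + c := by
        rw [lintegral_add_right _ measurable_const,
          lintegral_indicator_one (measurableSet_toMeasurable μ S), measure_toMeasurable,
          lintegral_const, measure_univ, mul_one]

theorem ae_bounded {d : ℕ} {ν : Measure ℝ} [IsProbabilityMeasure ν] {K : ℝ}
    (hν : ν (Set.Icc (-K) K)ᶜ = 0) : ∀ᵐ V ∂(PP d ν), ∀ x, |V x| ≤ K := by
  rw [ae_all_iff]
  intro x
  have h1 : ∀ᵐ s ∂ν, |s| ≤ K := by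
    rw [ae_iff]
    refine measure_mono_null (fun s hs => ?_) hν
    intro h
    exact hs (abs_le.2 h)
  exact (measurePreserving_eval_infinitePi (fun _ : Zd d => ν) x).quasiMeasurePreserving.ae h1

/-- DYN: polynomial decay of the matrix elements -/
theorem t_DYN (hCOR : St_COR) : St_DYN := by
  intro d hd ν _ K hν ev hev hTot n h1 h2 P hP
  have : IsProbabilityMeasure (PP d ν) := by unfold PP; infer_instance
  have hle1 : ∀ V (x : Zd d), ⨆ t : ℝ, ‖((ev V).U t (dl 0)) x‖ₑ ≤ 1 := by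
    intro V x
    refine iSup_le fun t => ?_
    have := Lap.ut_le (ev V) t 0 x
    rw [← ofReal_norm]
    exact ENNReal.ofReal_le_one.2 this
  set R0 : ℕ := 9 * 2 ^ n 0 with hR0
  set A1 : ℝ := (1 + (R0 : ℝ)) ^ ((P : ℝ) / 2) with hA1
  set A2 : ℝ := (1 + 4 * 5 ^ d) * 3 ^ P with hA2
  have hA1p : 0 < A1 := by positivity
  have hA2p : 0 < A2 := by positivity
  refine ⟨A1 + A2, by positivity, fun x => ?_⟩
  set R : ℕ := dd 0 x with hR
  have hxR : ‖x‖ ≤ (R : ℝ) := by simpa using norm_le_dd 0 x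
  have hp0 : (0 : ℝ) < 1 + ‖x‖ := by positivity
  have hmono : (1 + (R : ℝ)) ^ (-(P : ℝ) / 2) ≤ (1 + ‖x‖) ^ (-(P : ℝ) / 2) :=
    Real.rpow_le_rpow_of_nonpos hp0 (by linarith) (by
      have : (0 : ℝ) ≤ P := Nat.cast_nonneg _
      linarith)
  by_cases hsm : R < R0
  · -- small distance
    have h3 : (1 : ℝ) ≤ (A1 + A2) * (1 + ‖x‖) ^ (-(P : ℝ) / 2) := by
      have e1 : (1 + (R0 : ℝ)) ^ (-(P : ℝ) / 2) ≤ (1 + ‖x‖) ^ (-(P : ℝ) / 2) := by
        refine Real.rpow_le_rpow_of_nonpos hp0 ?_ (by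
          have : (0 : ℝ) ≤ P := Nat.cast_nonneg _
          linarith)
        have : (R : ℝ) ≤ R0 := by exact_mod_cast hsm.le
        linarith
      calc (1 : ℝ) = A1 * (1 + (R0 : ℝ)) ^ (-(P : ℝ) / 2) := by
            rw [hA1, ← Real.rpow_add (by positivity)]
            have : (P : ℝ) / 2 + -(P : ℝ) / 2 = 0 := by ring
            rw [this, Real.rpow_zero]
        _ ≤ A1 * (1 + ‖x‖) ^ (-(P : ℝ) / 2) := by gcongr
        _ ≤ _ := by
            have : 0 ≤ (1 + ‖x‖) ^ (-(P : ℝ) / 2) := by positivity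
            nlinarith
    calc ∫⁻ V, ⨆ t : ℝ, ‖((ev V).U t (dl 0)) x‖ₑ ∂(PP d ν) ≤ ∫⁻ _V, 1 ∂(PP d ν) :=
          lintegral_mono fun V => hle1 V x
      _ = ENNReal.ofReal 1 := by rw [lintegral_const, measure_univ, mul_one, ENNReal.ofReal_one]
      _ ≤ _ := ENNReal.ofReal_le_ofReal h3
  · push Not at hsm
    obtain ⟨k, -, hk1, hk2⟩ := scale n h1 R 0 hsm
    set L : ℝ := (2 : ℝ) ^ n k with hL
    have hL1 : 1 ≤ L := one_le_pow₀ (by norm_num)
    have hTwo := hP k 0 x (by have : 0 < 2 ^ n k := by positivity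
                              omega)
    set c : ℝ := 4 * dec (P + d) (n k) * (2 * (2 ^ n k : ℕ) + 3 : ℝ) ^ d with hc
    have hoff : ∀ᵐ V ∂(PP d ν), V ∉ Two 0 x (2 ^ n k) (dec (P + d) (n k)) (2 * d + K) →
        ⨆ t : ℝ, ‖((ev V).U t (dl 0)) x‖ₑ ≤ ENNReal.ofReal c := by
      filter_upwards [hTot, ae_bounded (d := d) hν] with V hV1 hV2 hV3
      refine iSup_le fun t => ?_
      rw [← ofReal_norm]
      refine ENNReal.ofReal_le_ofReal ?_
      refine hCOR d V K hV2 hV1 (ev V) (hev V) x 0 (2 ^ n k) (dec (P + d) (n k))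
        (by unfold dec; positivity) (fun E hE => ?_) t
      by_contra hcon
      push Not at hcon
      exact hV3 ⟨E, hE, hcon.2, hcon.1⟩
    have hpro : pro P (n k) = (L ^ P)⁻¹ := by
      unfold pro
      rw [Real.rpow_neg (by norm_num), hL, ← pow_mul, ← Real.rpow_natCast]
      congr 2
      push_cast
      ring
    have hc2 : c ≤ 4 * 5 ^ d * (L ^ P)⁻¹ := by
      rw [hc]
      unfold dec
      have e1 : ((2 : ℝ) ^ ((P + d) * n k)) = L ^ P * L ^ d := by
        rw [hL, ← pow_add, ← pow_mul, mul_comm]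
      have e2 : (2 * ((2 ^ n k : ℕ) : ℝ) + 3 : ℝ) ≤ 5 * L := by
        push_cast
        rw [← hL]
        linarith
      rw [e1]
      calc 4 * (L ^ P * L ^ d)⁻¹ * (2 * ((2 ^ n k : ℕ) : ℝ) + 3 : ℝ) ^ d
          ≤ 4 * (L ^ P * L ^ d)⁻¹ * (5 * L) ^ d := by gcongr
        _ = 4 * 5 ^ d * (L ^ P)⁻¹ := by
            rw [mul_pow]
            have : L ^ d ≠ 0 := by positivity
            have : L ^ P ≠ 0 := by positivity
            field_simp
    have hfin : (L ^ P)⁻¹ ≤ 3 ^ P * (1 + (R : ℝ)) ^ (-(P : ℝ) / 2) := by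
      have e1 : 1 + R ≤ 9 * 2 ^ (2 * n k) := by
        have : 2 ^ n (k + 1) ≤ 2 ^ (2 * n k) := Nat.pow_le_pow_right (by norm_num) (h2 k)
        omega
      have e2 : (1 + (R : ℝ)) ≤ (3 * L) ^ 2 := by
        have e3 : (1 + (R : ℝ)) ≤ 9 * (2 : ℝ) ^ (2 * n k) := by exact_mod_cast e1
        rw [mul_pow, hL, ← pow_mul, mul_comm (n k) 2]
        linarith
      have e4 : ((3 * L) ^ 2) ^ (-(P : ℝ) / 2) ≤ (1 + (R : ℝ)) ^ (-(P : ℝ) / 2) :=
        Real.rpow_le_rpow_of_nonpos (by positivity) e2 (by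
          have : (0 : ℝ) ≤ P := Nat.cast_nonneg _
          linarith)
      have e5 : ((3 * L) ^ 2) ^ (-(P : ℝ) / 2) = (3 ^ P)⁻¹ * (L ^ P)⁻¹ := by
        rw [← Real.rpow_natCast (3 * L) 2, ← Real.rpow_mul (by positivity)]
        have : ((2 : ℕ) : ℝ) * (-(P : ℝ) / 2) = -(P : ℝ) := by push_cast; ring
        rw [this, Real.rpow_neg (by positivity), Real.rpow_natCast, mul_pow, mul_inv]
      rw [e5] at e4
      have h3P : (0 : ℝ) < 3 ^ P := by positivity
      calc (L ^ P)⁻¹ = 3 ^ P * ((3 ^ P)⁻¹ * (L ^ P)⁻¹) := by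
            rw [← mul_assoc, mul_inv_cancel₀ h3P.ne', one_mul]
        _ ≤ _ := by gcongr
    calc ∫⁻ V, ⨆ t : ℝ, ‖((ev V).U t (dl 0)) x‖ₑ ∂(PP d ν)
        ≤ (PP d ν) (Two 0 x (2 ^ n k) (dec (P + d) (n k)) (2 * d + K)) + ENNReal.ofReal c :=
          lintegral_le_of_set _ _ _ _ (Eventually.of_forall fun V => hle1 V x) hoff
      _ ≤ ENNReal.ofReal (pro P (n k)) + ENNReal.ofReal c := by gcongr
      _ = ENNReal.ofReal (pro P (n k) + c) := by
          rw [ENNReal.ofReal_add (by rw [hpro]; positivity) (by rw [hc]; unfold dec; positivity)]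
      _ ≤ _ := by
          refine ENNReal.ofReal_le_ofReal ?_
          rw [hpro]
          have e0 : 0 ≤ (1 + ‖x‖) ^ (-(P : ℝ) / 2) := by positivity
          calc (L ^ P)⁻¹ + c ≤ (1 + 4 * 5 ^ d) * (L ^ P)⁻¹ := by
                rw [add_mul, one_mul]
                linarith
            _ ≤ (1 + 4 * 5 ^ d) * (3 ^ P * (1 + (R : ℝ)) ^ (-(P : ℝ) / 2)) := by gcongr
            _ = A2 * (1 + (R : ℝ)) ^ (-(P : ℝ) / 2) := by rw [hA2]; ring
            _ ≤ A2 * (1 + ‖x‖) ^ (-(P : ℝ) / 2) := by gcongr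
            _ ≤ _ := by nlinarith

end Pool.Agent.Helper18.Tg
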