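import Pool.Agent.Helper28.Tg.Defs

/-! # Decay of polynomially bounded generalised eigenfunctions (part GEF) -/

set_option autoImplicit false
set_option linter.unusedSimpArgs false

open MeasureTheory Filter Topology
open scoped BigOperators ENNReal NNReal InnerProductSpace ComplexConjugate

namespace Pool.Agent.Helper18.Tg

open Pool.Agent.H4R2.LO (Zd dd bx Hg L2f IsSpec PolyB IsGen)
open Pool.Agent.Helper28.Tg

/-! ### the sup distance -/

theorem dd_le {d : ℕ} {x y : Zd d} {l : ℕ} : dd x y ≤ l ↔ ∀ i, (x i - y i).natAbs ≤ l := by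
  simp [dd, Finset.sup_le_iff]

theorem dd_coord {d : ℕ} (x y : Zd d) (i : Fin d) : (x i - y i).natAbs ≤ dd x y :=
  dd_le.1 le_rfl i

theorem dd_comm {d : ℕ} (x y : Zd d) : dd x y = dd y x := by
  unfold dd
  congr 1
  funext i
  rw [← Int.natAbs_neg]
  congr 1
  ring

theorem dd_tri {d : ℕ} (x y z : Zd d) : dd x z ≤ dd x y + dd y z := by
  rw [dd_le]
  intro i
  have h1 := dd_coord x y i
  have h2 := dd_coord y z i
  have h3 : (x i - z i).natAbs ≤ (x i - y i).natAbs + (y i - z i).natAbs := by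
    have : x i - z i = (x i - y i) + (y i - z i) := by ring
    rw [this]
    exact Int.natAbs_add_le _ _
  omega

/-- the norm is at most the norm of the centre plus the distance -/
theorem norm_le_dd {d : ℕ} (x y : Zd d) : ‖y‖ ≤ ‖x‖ + (dd x y : ℝ) := by
  have h0 : (0 : ℝ) ≤ ‖x‖ + (dd x y : ℝ) := by positivity
  rw [pi_norm_le_iff_of_nonneg h0]
  intro i
  have h1 : ‖x i‖ ≤ ‖x‖ := norm_le_pi_norm x i
  have h2 : ‖y i - x i‖ ≤ (dd x y : ℝ) := by
    have h3 := dd_coord x y i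
    have h4 : ((x i - y i).natAbs : ℝ) ≤ (dd x y : ℝ) := by exact_mod_cast h3
    have h5 : ‖y i - x i‖ = ((x i - y i).natAbs : ℝ) := by
      rw [Int.norm_eq_abs, Nat.cast_natAbs]
      push_cast
      rw [abs_sub_comm]
    rw [h5]
    exact h4
  calc ‖y i‖ = ‖x i + (y i - x i)‖ := by congr 1; ring
    _ ≤ ‖x i‖ + ‖y i - x i‖ := norm_add_le _ _
    _ ≤ _ := by linarith

/-! ### summability -/

theorem summable_line (a : ℤ) : Summable fun m : ℤ => ((1 + |(a : ℝ) - m|) ^ 2)⁻¹ := by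
  have h : Summable fun m : ℤ => ((1 + |(m : ℝ)|) ^ 2)⁻¹ := by
    have h1 : Summable fun n : ℕ => ((1 + |((n : ℤ) : ℝ)|) ^ 2)⁻¹ := by
      have := (summable_nat_add_iff 1).2 (Real.summable_nat_pow_inv.2 (by norm_num : 1 < 2))
      refine this.congr fun n => ?_
      push_cast
      rw [abs_of_nonneg (by positivity : (0 : ℝ) ≤ (n : ℝ)), add_comm]
    refine Summable.of_nat_of_neg h1 ?_
    refine h1.congr fun n => ?_
    simp
  have h2 := (Equiv.subLeft a).summable_iff.2 h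
  refine h2.congr fun m => ?_
  simp [Equiv.subLeft]

theorem summable_prod {d : ℕ} (f : Fin d → ℤ → ℝ) (h0 : ∀ i m, 0 ≤ f i m)
    (hs : ∀ i, Summable (f i)) : Summable fun y : Zd d => ∏ i, f i (y i) := by
  classical
  refine summable_of_sum_le (c := ∏ i, ∑' m, f i m) (fun y => Finset.prod_nonneg fun i _ => h0 i _)
    fun s => ?_
  have hsub : s ⊆ Fintype.piFinset fun i => s.image fun y => y i := by
    intro y hy
    rw [Fintype.mem_piFinset]
    intro i
    exact Finset.mem_image_of_mem _ hy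
  calc ∑ y ∈ s, ∏ i, f i (y i)
      ≤ ∑ y ∈ Fintype.piFinset fun i => s.image fun y => y i, ∏ i, f i (y i) :=
        Finset.sum_le_sum_of_subset_of_nonneg hsub
          fun y _ _ => Finset.prod_nonneg fun i _ => h0 i _
    _ = ∏ i, ∑ m ∈ s.image fun y => y i, f i m := (Finset.prod_univ_sum _ _).symm
    _ ≤ ∏ i, ∑' m, f i m := by
        refine Finset.prod_le_prod (fun i _ => Finset.sum_nonneg fun m _ => h0 i m) fun i _ => ?_
        exact (hs i).sum_le_tsum _ fun m _ => h0 i m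

theorem summable_dd {d : ℕ} (x : Zd d) :
    Summable fun y : Zd d => ((1 + (dd x y : ℝ)) ^ (2 * d))⁻¹ := by
  refine Summable.of_nonneg_of_le (fun y => by positivity) (fun y => ?_)
    (summable_prod (fun i m => ((1 + |(x i : ℝ) - m|) ^ 2)⁻¹) (fun i m => by positivity)
      fun i => summable_line (x i))
  rw [Finset.prod_inv_distrib]
  refine inv_anti₀ (Finset.prod_pos fun i _ => by positivity) ?_
  calc ∏ i, (1 + |(x i : ℝ) - y i|) ^ 2 ≤ ∏ _i : Fin d, (1 + (dd x y : ℝ)) ^ 2 := by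
        refine Finset.prod_le_prod (fun i _ => by positivity) fun i _ => ?_
        have h3 := dd_coord x y i
        have h4 : ((x i - y i).natAbs : ℝ) ≤ (dd x y : ℝ) := by exact_mod_cast h3
        have h5 : |(x i : ℝ) - y i| = ((x i - y i).natAbs : ℝ) := by
          rw [Nat.cast_natAbs]
          push_cast
          rfl
        rw [h5]
        gcongr
    _ = (1 + (dd x y : ℝ)) ^ (2 * d) := by
        rw [Finset.prod_const, Finset.card_univ, Fintype.card_fin, ← pow_mul]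

/-! ### the grid -/

/-- the grid point of `y` -/
def gp {d : ℕ} (h : ℤ) (y : Zd d) : Zd d := fun i => h * (y i / h)

theorem gp_dvd {d : ℕ} (h : ℤ) (y : Zd d) (i : Fin d) : h ∣ gp h y i := Dvd.intro _ rfl

theorem gp_near {d : ℕ} (h : ℕ) (h0 : 0 < h) (y : Zd d) : dd (gp h y) y ≤ h := by
  rw [dd_le]
  intro i
  have h1 : (0 : ℤ) ≤ y i % h := Int.emod_nonneg _ (by exact_mod_cast h0.ne')
  have h2 : y i % h < h := Int.emod_lt_of_pos _ (by exact_mod_cast h0)
  have h3 : (h : ℤ) * (y i / h) + y i % h = y i := Int.mul_ediv_add_emod _ _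
  have h4 : gp (h : ℤ) y i - y i = -(y i % h) := by
    unfold gp
    linarith
  rw [h4]
  omega

/-! ### real and imaginary parts -/

theorem re_eq {d : ℕ} (V : Zd d → ℝ) (E : ℝ) (φ : Zd d → ℂ) (h : IsGen (-1) V E φ) (y : Zd d) :
    Hr V (fun z => (φ z).re) y = E * (φ y).re := by
  have := congrArg Complex.re (h y)
  simp only [Hg, Complex.add_re, Complex.mul_re, Complex.ofReal_re, Complex.ofReal_im,
    Complex.re_sum, Complex.ofReal_neg, Complex.ofReal_one, Complex.neg_re, Complex.one_re,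
    Complex.neg_im, Complex.one_im, zero_mul, sub_zero, neg_zero, neg_mul, one_mul] at this
  simpa [Hr] using this

theorem im_eq {d : ℕ} (V : Zd d → ℝ) (E : ℝ) (φ : Zd d → ℂ) (h : IsGen (-1) V E φ) (y : Zd d) :
    Hr V (fun z => (φ z).im) y = E * (φ y).im := by
  have := congrArg Complex.im (h y)
  simp only [Hg, Complex.add_im, Complex.mul_im, Complex.ofReal_re, Complex.ofReal_im,
    Complex.im_sum, Complex.ofReal_neg, Complex.ofReal_one, Complex.neg_re, Complex.one_re,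
    Complex.neg_im, Complex.one_im, zero_mul, add_zero, neg_zero, neg_mul, one_mul] at this
  simpa [Hr] using this

/-! ### the bootstrap -/

/-- the bound with exponent `a` -/
def Bd {d : ℕ} (x : Zd d) (φ : Zd d → ℂ) (a : ℤ) : Prop :=
  ∃ C : ℝ, 0 ≤ C ∧ ∀ y, ‖φ y‖ ≤ C * (1 + (dd x y : ℝ)) ^ a

theorem Bd.of_poly {d : ℕ} (x : Zd d) {φ : Zd d → ℂ} (h : PolyB φ) : ∃ k : ℕ, Bd x φ k := by
  obtain ⟨C, k, h⟩ := h
  refine ⟨k, max C 0 * (1 + ‖x‖) ^ k, by positivity, fun y => ?_⟩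
  have h1 := norm_le_dd x y
  rw [zpow_natCast]
  calc ‖φ y‖ ≤ C * (1 + ‖y‖) ^ k := h y
    _ ≤ max C 0 * (1 + ‖y‖) ^ k := by gcongr; exact le_max_left _ _
    _ ≤ max C 0 * ((1 + ‖x‖) * (1 + (dd x y : ℝ))) ^ k := by
        gcongr
        nlinarith [norm_nonneg x, mul_nonneg (norm_nonneg x) (Nat.cast_nonneg (α := ℝ) (dd x y))]
    _ = _ := by rw [mul_pow]; ring

/-- comparison of powers -/
theorem zpow_comp {s t : ℝ} (hs : 0 < s) (ht : 0 < t) (h1 : s / 2 ≤ t) (h2 : t ≤ 2 * s) (a : ℤ) :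
    t ^ a ≤ 2 ^ a.natAbs * s ^ a := by
  rcases le_total 0 a with ha | ha
  · obtain ⟨m, rfl⟩ := Int.eq_ofNat_of_zero_le ha
    simp only [zpow_natCast, Int.natAbs_natCast]
    rw [← mul_pow]
    gcongr
  · obtain ⟨m, hm⟩ := Int.eq_ofNat_of_zero_le (neg_nonneg.2 ha)
    obtain rfl : a = -(m : ℤ) := by omega
    simp only [zpow_neg, zpow_natCast, Int.natAbs_neg, Int.natAbs_natCast]
    rw [← inv_pow, ← inv_pow, ← mul_pow]
    refine pow_le_pow_left₀ (by positivity) ?_ m
    rw [inv_le_comm₀ ht (by positivity), mul_inv, inv_inv]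
    linarith

/-- the scale of a large number -/
theorem scale (n : ℕ → ℕ) (hn : ∀ k, n k < n (k + 1)) (R k0 : ℕ) (hR : 9 * 2 ^ n k0 ≤ R) :
    ∃ k, k0 ≤ k ∧ 9 * 2 ^ n k ≤ R ∧ R < 9 * 2 ^ n (k + 1) := by
  have hk : ∀ k, k ≤ n k := by
    intro k
    induction k with
    | zero => exact Nat.zero_le _
    | succ k ih => exact lt_of_le_of_lt ih (hn k)
  have hex : ∃ k, R < 9 * 2 ^ n (k + 1) := by
    refine ⟨R, ?_⟩
    have h1 : R + 1 ≤ n (R + 1) := hk _
    have h2 : R < 2 ^ n (R + 1) :=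
      lt_of_lt_of_le (Nat.lt_of_lt_of_le (Nat.lt_succ_self R) h1) (Nat.lt_two_pow_self).le
    omega
  classical
  have hmono : StrictMono n := strictMono_nat_of_lt_succ hn
  refine ⟨Nat.find hex, ?_, ?_, Nat.find_spec hex⟩
  · by_contra hlt
    push Not at hlt
    have h3 := Nat.find_spec hex
    have h4 : n (Nat.find hex + 1) ≤ n k0 := hmono.monotone hlt
    have h5 : 2 ^ n (Nat.find hex + 1) ≤ 2 ^ n k0 := Nat.pow_le_pow_right (by norm_num) h4
    omega
  · by_cases h0 : Nat.find hex = 0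
    · rw [h0]
      have h4 : n 0 ≤ n k0 := hmono.monotone (Nat.zero_le _)
      have h5 : 2 ^ n 0 ≤ 2 ^ n k0 := Nat.pow_le_pow_right (by norm_num) h4
      omega
    · have h6 := Nat.find_min hex (m := Nat.find hex - 1) (by omega)
      have h7 : Nat.find hex - 1 + 1 = Nat.find hex := by omega
      rw [h7] at h6
      omega

theorem Bd.step {d : ℕ} (hd : 1 ≤ d) {V : Zd d → ℝ} {E : ℝ} {x : Zd d} {n : ℕ → ℕ}
    (h1 : ∀ k, 1 ≤ n k) (h2 : ∀ k, n k < n (k + 1)) (h3 : ∀ k, n (k + 1) ≤ 2 * n k) {k0 : ℕ}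
    (h4 : ∀ k, k0 ≤ k → ∀ c : Zd d, (∀ i, (2 : ℤ) ^ (n k - 1) ∣ c i) →
      8 * 2 ^ n k ≤ dd x c → dd x c ≤ 16 * 2 ^ n (k + 1) → Dc c (2 ^ n k) (eta d (n k)) E V)
    {φ : Zd d → ℂ} (hφ : IsGen (-1) V E φ) {a : ℤ} (h : Bd x φ a) : Bd x φ (a - 1) := by
  obtain ⟨C, hC, hb⟩ := h
  set R0 : ℕ := 9 * 2 ^ n k0 with hR0
  refine ⟨C * (1 + R0) + 36 * C * 2 ^ a.natAbs, by positivity, fun y => ?_⟩
  set R : ℕ := dd x y with hR
  have hpos : (0 : ℝ) < 1 + (R : ℝ) := by positivity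
  have hsplit : (1 + (R : ℝ)) ^ a = (1 + (R : ℝ)) ^ (a - 1) * (1 + (R : ℝ)) := by
    rw [zpow_sub_one₀ hpos.ne']
    field_simp
  have hz : 0 ≤ (1 + (R : ℝ)) ^ (a - 1) := by positivity
  by_cases hsm : R < R0
  · have h5 : (R : ℝ) ≤ R0 := by exact_mod_cast hsm.le
    calc ‖φ y‖ ≤ C * (1 + (R : ℝ)) ^ a := hb y
      _ = C * ((1 + (R : ℝ)) ^ (a - 1) * (1 + (R : ℝ))) := by rw [hsplit]
      _ ≤ C * ((1 + (R : ℝ)) ^ (a - 1) * (1 + (R0 : ℝ))) := by gcongr
      _ = C * (1 + (R0 : ℝ)) * (1 + (R : ℝ)) ^ (a - 1) := by ring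
      _ ≤ _ := by
        refine mul_le_mul_of_nonneg_right ?_ hz
        have : (0 : ℝ) ≤ 36 * C * 2 ^ a.natAbs := by positivity
        linarith
  · push Not at hsm
    obtain ⟨k, hk0, hk1, hk2⟩ := scale n h2 R k0 hsm
    set l : ℕ := 2 ^ n k with hl
    set hh : ℕ := 2 ^ (n k - 1) with hhh
    have hl2 : l = 2 * hh := by
      rw [hl, hhh, ← pow_succ']
      congr 1
      have := h1 k
      omega
    have hh1 : 1 ≤ hh := Nat.one_le_two_pow
    set c : Zd d := gp (hh : ℤ) y with hc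
    have hcy : dd c y ≤ hh := gp_near hh hh1 y
    have hlk : l ^ 2 = 2 ^ (2 * n k) := by rw [hl, ← pow_mul, mul_comm]
    have hle : 2 ^ n (k + 1) ≤ l ^ 2 := by
      rw [hlk]
      exact Nat.pow_le_pow_right (by norm_num) (h3 k)
    have hge : 2 * l ≤ 2 ^ n (k + 1) := by
      rw [hl, ← pow_succ']
      exact Nat.pow_le_pow_right (by norm_num) (h2 k)
    have hxc1 : R ≤ dd x c + hh := by
      have := dd_tri x c y
      omega
    have hxc2 : dd x c ≤ R + hh := by
      have := dd_tri x y c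
      rw [dd_comm y c] at this
      omega
    have hgood : Dc c l (eta d (n k)) E V := by
      refine h4 k hk0 c (fun i => ?_) (by omega) (by omega)
      have := gp_dvd (hh : ℤ) y i
      rw [hhh] at this
      push_cast at this
      exact this
    set b : ℝ := C * (2 ^ a.natAbs * (1 + (R : ℝ)) ^ a) with hbdef
    have hb0 : 0 ≤ b := by positivity
    have hbw : ∀ w, dd c w ≤ l + 1 → ‖φ w‖ ≤ b := by
      intro w hw
      have e1 : R ≤ dd x w + (hh + (l + 1)) := by
        have t1 := dd_tri x w y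
        have t2 := dd_tri w c y
        rw [dd_comm w c] at t2
        omega
      have e2 : dd x w ≤ R + (hh + (l + 1)) := by
        have t1 := dd_tri x y w
        have t2 := dd_tri y c w
        rw [dd_comm y c] at t2
        omega
      refine (hb w).trans ?_
      rw [hbdef]
      refine mul_le_mul_of_nonneg_left ?_ hC
      refine zpow_comp hpos (by positivity) ?_ ?_ a
      · have e3 : 1 + R ≤ 2 * (1 + dd x w) := by omega
        have e4 : (1 + R : ℝ) ≤ 2 * (1 + (dd x w : ℝ)) := by exact_mod_cast e3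
        linarith
      · have e3 : 1 + dd x w ≤ 2 * (1 + R) := by omega
        exact_mod_cast e3
    have hre : |(φ y).re| ≤ eta d (n k) * b :=
      hgood (fun z => (φ z).re) (fun z _ => re_eq V E φ hφ z) b
        (fun w hw => (Complex.abs_re_le_norm _).trans (hbw w hw)) y (by omega)
    have him : |(φ y).im| ≤ eta d (n k) * b :=
      hgood (fun z => (φ z).im) (fun z _ => im_eq V E φ hφ z) b
        (fun w hw => (Complex.abs_im_le_norm _).trans (hbw w hw)) y (by omega)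
    have hnorm : ‖φ y‖ ≤ 2 * (eta d (n k) * b) := by
      have := Complex.norm_le_abs_re_add_abs_im (φ y)
      linarith
    have heta : eta d (n k) * (1 + (R : ℝ)) ≤ 18 := by
      have e5 : R < 9 * l ^ 2 := by omega
      have e6 : (R : ℝ) < 9 * (l : ℝ) ^ 2 := by exact_mod_cast e5
      have e7 : (1 : ℝ) ≤ (l : ℝ) := by
        have : 1 ≤ l := by omega
        exact_mod_cast this
      have e8 : eta d (n k) = ((l : ℝ) ^ (2 * d + 2))⁻¹ := by
        unfold eta
        rw [hl]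
        push_cast
        rw [← pow_mul, mul_comm (n k)]
      have e9 : (l : ℝ) ^ 2 ≤ (l : ℝ) ^ (2 * d + 2) := pow_le_pow_right₀ e7 (by omega)
      have e10 : (0 : ℝ) < (l : ℝ) ^ 2 := by positivity
      rw [e8, inv_mul_le_iff₀ (by positivity)]
      nlinarith
    have hbw' : b = C * 2 ^ a.natAbs * (1 + (R : ℝ)) ^ (a - 1) * (1 + (R : ℝ)) := by
      rw [hbdef, hsplit]
      ring
    calc ‖φ y‖ ≤ 2 * (eta d (n k) * b) := hnorm
      _ = 2 * C * 2 ^ a.natAbs * (1 + (R : ℝ)) ^ (a - 1) * (eta d (n k) * (1 + (R : ℝ))) := by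
          rw [hbw']
          ring
      _ ≤ 2 * C * 2 ^ a.natAbs * (1 + (R : ℝ)) ^ (a - 1) * 18 := by gcongr
      _ = 36 * C * 2 ^ a.natAbs * (1 + (R : ℝ)) ^ (a - 1) := by ring
      _ ≤ _ := by
        refine mul_le_mul_of_nonneg_right ?_ hz
        have : (0 : ℝ) ≤ C * (1 + (R0 : ℝ)) := by positivity
        linarith

/-- GEF: decay of polynomially bounded generalised eigenfunctions -/
theorem t_GEF : St_GEF := by
  intro d hd V E x n h1 h2 h3 h4 φ hp hφ
  obtain ⟨k0, h4⟩ := h4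
  obtain ⟨p, hp⟩ := Bd.of_poly x hp
  have key : ∀ m : ℕ, Bd x φ ((p : ℤ) - m) := by
    intro m
    induction m with
    | zero => simpa using hp
    | succ m ih =>
      have := Bd.step hd h1 h2 h3 h4 hφ ih
      have e : (p : ℤ) - (m : ℤ) - 1 = (p : ℤ) - ((m + 1 : ℕ) : ℤ) := by push_cast; ring
      rwa [e] at this
  obtain ⟨C, hC, hb⟩ := key (p + d)
  have e : (p : ℤ) - ((p + d : ℕ) : ℤ) = -(d : ℤ) := by push_cast; ring
  rw [e] at hb
  unfold L2f
  refine Summable.of_nonneg_of_le (fun y => by positivity) (fun y => ?_)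
    ((summable_dd x).mul_left (C ^ 2))
  have h5 := hb y
  rw [zpow_neg, zpow_natCast] at h5
  calc ‖φ y‖ ^ 2 ≤ (C * ((1 + (dd x y : ℝ)) ^ d)⁻¹) ^ 2 := by gcongr
    _ = C ^ 2 * ((1 + (dd x y : ℝ)) ^ (2 * d))⁻¹ := by
        rw [mul_pow, inv_pow, ← pow_mul, mul_comm d 2]

end Pool.Agent.Helper18.Tg
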