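import Pool.Agent.Helper18.Tg.Gef
import Pool.Agent.Helper28.Tg.Defs7

/-! # Exponential decay of polynomially bounded generalised eigenfunctions (part GEX) -/

set_option autoImplicit false
set_option linter.unusedSimpArgs false

open MeasureTheory Filter Topology
open scoped BigOperators ENNReal NNReal InnerProductSpace ComplexConjugate

namespace Pool.Agent.Helper18.Tg.Gex

open Pool.Agent.H4R2.LO (Zd dd bx Hg L2f IsSpec PolyB IsGen)
open Pool.Agent.H5R2.NB (UG L2 dl IsGrp PP)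
open Pool.Agent.Helper28.Tg
open Pool.Agent.H4R2.LO.Gef.BX (mem_bx card_bx)

/-! ### the deterministic part -/

/-- iteration of the centre estimate -/
theorem iter {d : ℕ} {V : Zd d → ℝ} {E ρ : ℝ} {l : ℕ} {φ : Zd d → ℝ}
    (hφ : ∀ y, Hr V φ y = E * φ y) (N : ℕ) :
    ∀ (y : Zd d) (b : ℝ), (∀ z, dd y z ≤ N * (l + 1) → Ce z l ρ E V) →
      (∀ w, dd y w ≤ N * (l + 1) → |φ w| ≤ b) → |φ y| ≤ Real.exp (-(ρ * N)) * b := by
  induction N with
  | zero =>
    intro y b _ h2
    have := h2 y (by simp [dd])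
    simpa using this
  | succ N ih =>
    intro y b h1 h2
    have h3 : ∀ w, dd y w ≤ l + 1 → |φ w| ≤ Real.exp (-(ρ * N)) * b := by
      intro w hw
      refine ih w b (fun z hz => h1 z ?_) (fun z hz => h2 z ?_)
      · have := dd_tri y w z
        rw [add_mul, one_mul]
        omega
      · have := dd_tri y w z
        rw [add_mul, one_mul]
        omega
    have hg : Ce y l ρ E V := h1 y (by simp [dd])
    refine (hg φ (fun z _ => hφ z) _ h3).trans (le_of_eq ?_)
    rw [← mul_assoc, ← Real.exp_add]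
    congr 2
    push_cast
    ring

/-- polynomials are bounded by exponentials -/
theorem poly_exp (C : ℝ) (hC : 0 ≤ C) (p : ℕ) (c s : ℝ) (hc : 0 < c) (hs : 0 ≤ s) :
    ∃ K : ℝ, 0 ≤ K ∧ ∀ t : ℝ, 0 ≤ t → C * (s + t) ^ p ≤ K * Real.exp (c * t) := by
  refine ⟨C * (p.factorial * (c⁻¹) ^ p * Real.exp (c * s)), by positivity, fun t ht => ?_⟩
  have h1 : (c * (s + t)) ^ p / p.factorial ≤ Real.exp (c * (s + t)) :=
    Real.pow_div_factorial_le_exp _ (by positivity) _
  have hf : (0 : ℝ) < p.factorial := by exact_mod_cast p.factorial_pos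
  rw [div_le_iff₀ hf, mul_pow] at h1
  have h2 : (s + t) ^ p = (c⁻¹) ^ p * (c ^ p * (s + t) ^ p) := by
    rw [← mul_assoc, ← mul_pow, inv_mul_cancel₀ hc.ne', one_pow, one_mul]
  have h3 : Real.exp (c * (s + t)) = Real.exp (c * s) * Real.exp (c * t) := by
    rw [← Real.exp_add]
    congr 1
    ring
  calc C * (s + t) ^ p = C * ((c⁻¹) ^ p * (c ^ p * (s + t) ^ p)) := by rw [← h2]
    _ ≤ C * ((c⁻¹) ^ p * (Real.exp (c * (s + t)) * p.factorial)) := by gcongr
    _ = _ := by rw [h3]; ring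

/-- the scale of a large number -/
theorem scale16 (n : ℕ → ℕ) (hn : ∀ k, n k < n (k + 1)) (R k0 : ℕ) (hR : 16 * 2 ^ n k0 ≤ R) :
    ∃ k, k0 ≤ k ∧ 16 * 2 ^ n k ≤ R ∧ R < 16 * 2 ^ n (k + 1) := by
  have hk : ∀ k, k ≤ n k := by
    intro k
    induction k with
    | zero => exact Nat.zero_le _
    | succ k ih => exact lt_of_le_of_lt ih (hn k)
  have hex : ∃ k, R < 16 * 2 ^ n (k + 1) := by
    refine ⟨R, ?_⟩
    have h1 : R + 1 ≤ n (R + 1) := hk _
    have h2 : R < 2 ^ n (R + 1) :=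
      lt_of_lt_of_le (Nat.lt_of_lt_of_le (Nat.lt_succ_self R) h1) (Nat.lt_two_pow_self).le
    omega
  classical
  have hmono : StrictMono n := strictMono_nat_of_lt_succ hn
  refine ⟨Nat.find hex, ?_, ?_, Nat.find_spec hex⟩
  · by_contra hlt
    push Not at hlt
    have h3 := Nat.find_spec hex
    have h4 : n (Nat.find hex + 1) ≤ n k0 := hmono.monotone hlt
    have h5 : 2 ^ n (Nat.find hex + 1) ≤ 2 ^ n k0 := Nat.pow_le_pow_right (by norm_num) h4
    omega
  · by_cases h0 : Nat.find hex = 0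
    · rw [h0]
      have h4 : n 0 ≤ n k0 := hmono.monotone (Nat.zero_le _)
      have h5 : 2 ^ n 0 ≤ 2 ^ n k0 := Nat.pow_le_pow_right (by norm_num) h4
      omega
    · have h6 := Nat.find_min hex (m := Nat.find hex - 1) (by omega)
      have h7 : Nat.find hex - 1 + 1 = Nat.find hex := by omega
      rw [h7] at h6
      omega

/-- the deterministic statement -/
theorem deter {d : ℕ} {V : Zd d → ℝ} {a b m : ℝ} (hm : 0 < m) {nn : ℕ → ℕ}
    {BB : ℕ → Zd d → Set ((Zd d → ℝ) × ℝ)}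
    (h2 : ∀ k, nn k < nn (k + 1))
    (hce : ∀ k x V E, (V, E) ∉ BB k x → Ce x (2 ^ nn k) (m * 2 ^ nn k) E V)
    (hV : ∀ x0 : Zd d, ∃ k0, ∀ k, k0 ≤ k → ∀ y, 8 * 2 ^ nn k < dd x0 y →
      dd x0 y ≤ 64 * 2 ^ nn (k + 1) → ¬ ∃ E ∈ Set.Icc a b, (V, E) ∈ BB k x0 ∧ (V, E) ∈ BB k y)
    {E : ℝ} (hE : E ∈ Set.Icc a b) {ψ : Zd d → ℂ} (hp : PolyB ψ) (hψ : IsGen (-1) V E ψ) :
    ∃ A : ℝ, ∀ x, ‖ψ x‖ ≤ A * Real.exp (-(m / 32 * ‖x‖)) := by
  have hk : ∀ k, k ≤ nn k := by
    intro k
    induction k with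
    | zero => exact Nat.zero_le _
    | succ k ih => exact lt_of_le_of_lt ih (h2 k)
  by_cases hz : ∀ x, ψ x = 0
  · exact ⟨0, fun x => by simp [hz x]⟩
  push Not at hz
  obtain ⟨x0, hx0⟩ := hz
  obtain ⟨C, p, hC⟩ := hp
  -- the bound in terms of the distance to `x0`
  obtain ⟨K, hK0, hK⟩ := poly_exp (max C 0) (le_max_right _ _) p (m / 64) (1 + ‖x0‖)
    (by positivity) (by positivity)
  have hbd : ∀ (R : ℝ) (w : Zd d), (dd x0 w : ℝ) ≤ R → ‖ψ w‖ ≤ K * Real.exp (m / 64 * R) := by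
    intro R w hw
    have hR : 0 ≤ R := (Nat.cast_nonneg _).trans hw
    calc ‖ψ w‖ ≤ C * (1 + ‖w‖) ^ p := hC w
      _ ≤ max C 0 * (1 + ‖x0‖ + R) ^ p := by
          have := norm_le_dd x0 w
          have h3 : 1 + ‖w‖ ≤ 1 + ‖x0‖ + R := by linarith
          have h4 : (0 : ℝ) ≤ (1 + ‖w‖) ^ p := by positivity
          calc C * (1 + ‖w‖) ^ p ≤ max C 0 * (1 + ‖w‖) ^ p :=
                mul_le_mul_of_nonneg_right (le_max_left _ _) h4
            _ ≤ _ := by gcongr
      _ ≤ _ := hK R hR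
  -- `x0` is bad at all large scales
  have hbad : ∃ k1, ∀ k, k1 ≤ k → (V, E) ∈ BB k x0 := by
    have hlim : Tendsto (fun k : ℕ => 2 * K * Real.exp (-(m / 2 * k))) atTop (𝓝 (2 * K * 0)) := by
      refine Tendsto.const_mul _ ?_
      refine Real.tendsto_exp_neg_atTop_nhds_zero.comp ?_
      exact Tendsto.const_mul_atTop (by positivity) tendsto_natCast_atTop_atTop
    rw [mul_zero] at hlim
    have hpos : 0 < ‖ψ x0‖ := norm_pos_iff.2 hx0
    obtain ⟨k1, hk1⟩ := eventually_atTop.1 (hlim.eventually_lt_const hpos)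
    refine ⟨k1, fun k hkk => ?_⟩
    by_contra hnb
    have hg := hce k x0 V E hnb
    set l : ℕ := 2 ^ nn k with hl
    have hl1 : 1 ≤ l := Nat.one_le_two_pow
    have hlk : k ≤ l := (hk k).trans (Nat.lt_two_pow_self).le
    have hl1' : (1 : ℝ) ≤ l := by exact_mod_cast hl1
    have hlk' : (k : ℝ) ≤ l := by exact_mod_cast hlk
    have hbw : ∀ w, dd x0 w ≤ l + 1 → ‖ψ w‖ ≤ K * Real.exp (m / 64 * (l + 1)) := by
      intro w hw
      refine hbd _ w ?_
      exact_mod_cast hw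
    have hre := hg (fun z => (ψ z).re) (fun z _ => re_eq V E ψ hψ z) _
      (fun w hw => (Complex.abs_re_le_norm _).trans (hbw w hw))
    have him := hg (fun z => (ψ z).im) (fun z _ => im_eq V E ψ hψ z) _
      (fun w hw => (Complex.abs_im_le_norm _).trans (hbw w hw))
    have hnorm := Complex.norm_le_abs_re_add_abs_im (ψ x0)
    have hfin : Real.exp (-(m * 2 ^ nn k)) * (K * Real.exp (m / 64 * (l + 1))) ≤
        K * Real.exp (-(m / 2 * k)) := by
      have e0 : ((2 : ℝ) ^ nn k) = (l : ℝ) := by rw [hl]; push_cast; rfl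
      rw [e0]
      have e1 : Real.exp (-(m * l)) * (K * Real.exp (m / 64 * (l + 1))) =
          K * Real.exp (-(m * l) + m / 64 * (l + 1)) := by
        rw [Real.exp_add]
        ring
      rw [e1]
      refine mul_le_mul_of_nonneg_left (Real.exp_le_exp.2 ?_) hK0
      nlinarith
    have := hk1 k hkk
    linarith
  obtain ⟨k1, hk1⟩ := hbad
  obtain ⟨k0, hk0⟩ := hV x0
  set K1 : ℕ := max k0 k1 with hK1
  set R0 : ℕ := 16 * 2 ^ nn K1 with hR0
  -- decay in terms of the distance to `x0`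
  have hdec : ∀ y, ‖ψ y‖ ≤ (2 * K + K * Real.exp (m / 16 * R0)) *
      Real.exp (-(m / 32 * (dd x0 y : ℝ))) := by
    intro y
    set R : ℕ := dd x0 y with hR
    by_cases hsm : R < R0
    · have e1 : ‖ψ y‖ ≤ K * Real.exp (m / 64 * R) := hbd _ y (le_refl _)
      have e2 : (R : ℝ) ≤ R0 := by exact_mod_cast hsm.le
      have e3 : K * Real.exp (m / 64 * R) ≤ K * Real.exp (m / 16 * R0) *
          Real.exp (-(m / 32 * (R : ℝ))) := by
        rw [mul_assoc, ← Real.exp_add]
        refine mul_le_mul_of_nonneg_left (Real.exp_le_exp.2 ?_) hK0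
        have : (0 : ℝ) ≤ R := Nat.cast_nonneg _
        nlinarith
      refine e1.trans (e3.trans ?_)
      refine mul_le_mul_of_nonneg_right ?_ (Real.exp_pos _).le
      linarith
    · push Not at hsm
      obtain ⟨k, hkk, hka, hkb⟩ := scale16 nn h2 R K1 hsm
      set l : ℕ := 2 ^ nn k with hl
      set l' : ℕ := 2 ^ nn (k + 1) with hl'
      have hl1 : 1 ≤ l := Nat.one_le_two_pow
      set N : ℕ := R / (4 * (l + 1)) with hN
      have hN1 : 4 * (N * (l + 1)) ≤ R := by
        have := Nat.div_mul_le_self R (4 * (l + 1))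
        calc 4 * (N * (l + 1)) = R / (4 * (l + 1)) * (4 * (l + 1)) := by rw [hN]; ring
          _ ≤ R := this
      have hN2 : R < (N + 1) * (4 * (l + 1)) := by
        rw [hN]
        have := Nat.lt_div_mul_add (a := R) (b := 4 * (l + 1)) (by positivity)
        linarith
      have hgood : ∀ z, dd y z ≤ N * (l + 1) → Ce z l (m * 2 ^ nn k) E V := by
        intro z hz
        have t1 := dd_tri x0 z y
        have t2 := dd_tri x0 y z
        rw [dd_comm z y] at t1
        refine hce k z V E fun hzb => ?_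
        exact hk0 k (le_trans (le_max_left _ _) hkk) z (by omega) (by omega)
          ⟨E, hE, hk1 k (le_trans (le_max_right _ _) hkk), hzb⟩
      have hbw : ∀ w, dd y w ≤ N * (l + 1) → ‖ψ w‖ ≤ K * Real.exp (m / 64 * (2 * R)) := by
        intro w hw
        refine hbd _ w ?_
        have t2 := dd_tri x0 y w
        have : dd x0 w ≤ 2 * R := by omega
        exact_mod_cast this
      have hre := iter (fun z => re_eq V E ψ hψ z) N y _ hgood
        (fun w hw => (Complex.abs_re_le_norm _).trans (hbw w hw))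
      have him := iter (fun z => im_eq V E ψ hψ z) N y _ hgood
        (fun w hw => (Complex.abs_im_le_norm _).trans (hbw w hw))
      have hnorm := Complex.norm_le_abs_re_add_abs_im (ψ y)
      have hfin : Real.exp (-(m * 2 ^ nn k * N)) * (K * Real.exp (m / 64 * (2 * R))) ≤
          K * Real.exp (-(m / 32 * (R : ℝ))) := by
        have e0 : ((2 : ℝ) ^ nn k) = (l : ℝ) := by rw [hl]; push_cast; rfl
        rw [e0]
        have e1 : Real.exp (-(m * l * N)) * (K * Real.exp (m / 64 * (2 * R))) =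
            K * Real.exp (-(m * l * N) + m / 64 * (2 * R)) := by
          rw [Real.exp_add]
          ring
        rw [e1]
        refine mul_le_mul_of_nonneg_left (Real.exp_le_exp.2 ?_) hK0
        have f1 : (R : ℝ) < (N + 1) * (4 * (l + 1)) := by exact_mod_cast hN2
        have f2 : (16 : ℝ) * l ≤ R := by exact_mod_cast hka
        have f3 : (1 : ℝ) ≤ l := by exact_mod_cast hl1
        have f4 : (0 : ℝ) ≤ N := Nat.cast_nonneg _
        -- `R < 8 l (N + 1)`, hence `l N > R / 8 - l ≥ R / 16`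
        have f5 : (R : ℝ) < (N + 1) * (8 * l) := by
          refine lt_of_lt_of_le f1 ?_
          refine mul_le_mul_of_nonneg_left ?_ (by positivity)
          linarith
        have f6 : (R : ℝ) / 16 ≤ l * N := by nlinarith
        have f7 : m * (R / 16) ≤ m * (l * N) := mul_le_mul_of_nonneg_left f6 hm.le
        nlinarith
      have hfin2 : ‖ψ y‖ ≤ 2 * K * Real.exp (-(m / 32 * (R : ℝ))) := by linarith
      refine hfin2.trans ?_
      refine mul_le_mul_of_nonneg_right ?_ (Real.exp_pos _).le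
      have : 0 ≤ K * Real.exp (m / 16 * R0) := by positivity
      linarith
  refine ⟨(2 * K + K * Real.exp (m / 16 * R0)) * Real.exp (m / 32 * ‖x0‖), fun y => ?_⟩
  refine (hdec y).trans ?_
  rw [mul_assoc, ← Real.exp_add]
  refine mul_le_mul_of_nonneg_left (Real.exp_le_exp.2 ?_) (by positivity)
  have := norm_le_dd x0 y
  nlinarith

/-! ### the probabilistic part -/

/-- the event that `x0` and a point of the annulus are bad at a common energy -/
def NE {d : ℕ} (BB : ℕ → Zd d → Set ((Zd d → ℝ) × ℝ)) (nn : ℕ → ℕ) (J : Set ℝ) (x0 : Zd d)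
    (k : ℕ) : Set (Zd d → ℝ) :=
  ⋃ y ∈ (bx x0 (64 * 2 ^ nn (k + 1))).filter (fun y => 8 * 2 ^ nn k < dd x0 y),
    {V | ∃ E ∈ J, (V, E) ∈ BB k x0 ∧ (V, E) ∈ BB k y}

theorem NE_le {d : ℕ} (hd : 1 ≤ d) (ν : Measure ℝ) [IsProbabilityMeasure ν] (J : Set ℝ) (P : ℕ)
    (hP : 14 * d ≤ P) (m : ℝ) (nn : ℕ → ℕ) (BB : ℕ → Zd d → Set ((Zd d → ℝ) × ℝ))
    (h2 : ∀ k, nn k < nn (k + 1)) (h3 : ∀ k, nn (k + 1) ≤ 2 * nn k)
    (hB : ∀ k, Bt d ν J (2 ^ nn k) (m * 2 ^ nn k) (pro P (nn k)) (BB k)) (x0 : Zd d) (k : ℕ) :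
    (PP d ν) (NE BB nn J x0 k) ≤ ENNReal.ofReal ((129 : ℝ) ^ d * (1 / 2) ^ k) := by
  have hk : ∀ k, k ≤ nn k := by
    intro k
    induction k with
    | zero => exact Nat.zero_le _
    | succ k ih => exact lt_of_le_of_lt ih (h2 k)
  unfold NE
  set F := (bx x0 (64 * 2 ^ nn (k + 1))).filter (fun y => 8 * 2 ^ nn k < dd x0 y) with hF
  have hcard : (F.card : ℝ) ≤ (129 : ℝ) ^ d * 2 ^ (2 * nn k * d) := by
    have e1 : F.card ≤ (2 * (64 * 2 ^ nn (k + 1)) + 1) ^ d := by
      rw [← card_bx x0]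
      exact Finset.card_le_card (Finset.filter_subset _ _)
    have e2 : 2 * (64 * 2 ^ nn (k + 1)) + 1 ≤ 129 * 2 ^ (2 * nn k) := by
      have e3 : 2 ^ nn (k + 1) ≤ 2 ^ (2 * nn k) := Nat.pow_le_pow_right (by norm_num) (h3 k)
      have e4 : 1 ≤ 2 ^ (2 * nn k) := Nat.one_le_two_pow
      omega
    have e3 : F.card ≤ 129 ^ d * 2 ^ (2 * nn k * d) := by
      refine e1.trans ((Nat.pow_le_pow_left e2 d).trans (le_of_eq ?_))
      rw [mul_pow, ← pow_mul]
    exact_mod_cast e3
  have hp0 : 0 ≤ pro (P : ℝ) (nn k) := by unfold pro; positivity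
  calc (PP d ν) (⋃ y ∈ F, {V | ∃ E ∈ J, (V, E) ∈ BB k x0 ∧ (V, E) ∈ BB k y})
      ≤ ∑ y ∈ F, (PP d ν) {V | ∃ E ∈ J, (V, E) ∈ BB k x0 ∧ (V, E) ∈ BB k y} :=
        measure_biUnion_finset_le _ _
    _ ≤ ∑ _y ∈ F, ENNReal.ofReal (pro P (nn k)) := by
        refine Finset.sum_le_sum fun y hy => (hB k).pr x0 y ?_
        have h4 := (Finset.mem_filter.1 hy).2
        refine lt_of_le_of_lt ?_ h4
        omega
    _ = ENNReal.ofReal (F.card * pro P (nn k)) := by
        rw [Finset.sum_const, nsmul_eq_mul, ENNReal.ofReal_mul (by positivity)]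
        simp
    _ ≤ _ := by
        refine ENNReal.ofReal_le_ofReal ?_
        have e5 : pro (P : ℝ) (nn k) = ((2 : ℝ) ^ (P * nn k))⁻¹ := by
          unfold pro
          rw [Real.rpow_neg (by norm_num)]
          congr 1
          exact_mod_cast Real.rpow_natCast (2 : ℝ) (P * nn k)
        have e6 : (2 : ℝ) ^ (2 * nn k * d) * 2 ^ k ≤ 2 ^ (P * nn k) := by
          rw [← pow_add]
          refine pow_le_pow_right₀ (by norm_num) ?_
          have e7 : 14 * d * nn k ≤ P * nn k := Nat.mul_le_mul_right _ hP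
          have e8 : k ≤ d * nn k := (hk k).trans (Nat.le_mul_of_pos_left _ hd)
          nlinarith
        have e9 : (0 : ℝ) < 2 ^ (P * nn k) := by positivity
        have e10 : (0 : ℝ) < 2 ^ k := by positivity
        calc (F.card : ℝ) * pro P (nn k) ≤ (129 : ℝ) ^ d * 2 ^ (2 * nn k * d) * pro P (nn k) :=
              mul_le_mul_of_nonneg_right hcard hp0
          _ = (129 : ℝ) ^ d * (2 ^ (2 * nn k * d) / 2 ^ (P * nn k)) := by rw [e5]; ring
          _ ≤ (129 : ℝ) ^ d * (1 / 2) ^ k := by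
              refine mul_le_mul_of_nonneg_left ?_ (by positivity)
              rw [div_pow, one_pow, div_le_div_iff₀ e9 e10]
              linarith

/-- GEX: exponential decay of the polynomially bounded generalised eigenfunctions -/
theorem t_GEX : St_GEX := by
  intro d hd ν _ a b P hP m hm nn BB h1 h2 h3 hB
  refine ⟨m / 32, by positivity, ?_⟩
  have hae : ∀ x0 : Zd d, ∀ᵐ V ∂(PP d ν), ∀ᶠ k in atTop, V ∉ NE BB nn (Set.Icc a b) x0 k := by
    intro x0
    refine ae_eventually_notMem (ne_of_lt ?_)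
    refine lt_of_le_of_lt (ENNReal.tsum_le_tsum fun k =>
      NE_le hd ν (Set.Icc a b) P hP m nn BB h2 h3 hB x0 k) ?_
    have hs : Summable fun k : ℕ => (129 : ℝ) ^ d * (1 / 2) ^ k :=
      (summable_geometric_of_lt_one (by norm_num) (by norm_num)).mul_left _
    rw [← ENNReal.ofReal_tsum_of_nonneg (fun k => by positivity) hs]
    exact ENNReal.ofReal_lt_top
  have hae' := ae_all_iff.2 hae
  filter_upwards [hae'] with V hV
  intro E hE ψ hp hψ
  refine deter hm h2 (fun k x V E h => (hB k).ce x V E h) (fun x0 => ?_) hE hp hψ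
  obtain ⟨k0, hk0⟩ := eventually_atTop.1 (hV x0)
  refine ⟨k0, fun k hk y hy1 hy2 hc => hk0 k hk ?_⟩
  unfold NE
  simp only [Set.mem_iUnion, Finset.mem_filter]
  exact ⟨y, ⟨(mem_bx x0 y _).2 hy2, hy1⟩, hc⟩

end Pool.Agent.Helper18.Tg.Gex
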