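import Pool.Agent.Helper28.Tg.Lap
import Pool.Agent.Helper28.Tg.Defs5
import Pool.Graph.R_pool_sql_team_668148b0.Helper710.PGPlancherel

/-! # Plancherel's formula (parts PLA and ESC) -/

set_option autoImplicit false

open MeasureTheory Filter Topology FourierTransform
open scoped BigOperators ENNReal NNReal InnerProductSpace ComplexConjugate

namespace Pool.Agent.Helper18.Tg

open Pool.Agent.H4R2.LO (Zd dd bx Hg L2f IsSpec PolyB IsGen)
open Pool.Agent.H5R2.NB (UG L2 dl IsGrp PP)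
open Pool.Agent.Helper28.Tg

namespace Pla

variable {d : ℕ}

/-- the function of time -/
noncomputable def hh (W : UG (L2 (Zd d))) (T : ℝ) (x y : Zd d) : ℝ → ℂ :=
  (Set.Ioi (0 : ℝ)).indicator fun t => (Real.exp (-(1 / (2 * T) * t)) : ℂ) * (W.U t (dl x)) y

theorem ut_cont' (W : UG (L2 (Zd d))) (x y : Zd d) : Continuous fun t : ℝ => (W.U t (dl x)) y :=
  (Lap.ev y).continuous.comp (W.cont' (dl x))

theorem hh_int (W : UG (L2 (Zd d))) {T : ℝ} (hT : 0 < T) (x y : Zd d) :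
    Integrable (hh W T x y) := by
  unfold hh
  rw [integrable_indicator_iff measurableSet_Ioi]
  refine Integrable.mono' (Lap.exp_int (η := 1 / (2 * T)) (by positivity)) ?_ ?_
  · refine Continuous.aestronglyMeasurable ?_
    have := ut_cont' W x y
    fun_prop
  · refine Eventually.of_forall fun t => ?_
    rw [norm_mul, Complex.norm_real, Real.norm_of_nonneg (Real.exp_pos _).le]
    exact mul_le_of_le_one_right (Real.exp_pos _).le (Lap.ut_le W t x y)

theorem hh_le (W : UG (L2 (Zd d))) {T : ℝ} (hT : 0 < T) (x y : Zd d) (t : ℝ) :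
    ‖hh W T x y t‖ ≤ 1 := by
  unfold hh
  by_cases ht : t ∈ Set.Ioi (0 : ℝ)
  · rw [Set.indicator_of_mem ht, norm_mul, Complex.norm_real,
      Real.norm_of_nonneg (Real.exp_pos _).le]
    have h1 : Real.exp (-(1 / (2 * T) * t)) ≤ 1 := by
      rw [Real.exp_le_one_iff]
      have : (0 : ℝ) < t := ht
      have : 0 < 1 / (2 * T) * t := by positivity
      linarith
    exact mul_le_one₀ h1 (norm_nonneg _) (Lap.ut_le W t x y)
  · rw [Set.indicator_of_notMem ht, norm_zero]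
    exact zero_le_one

theorem hh_two (W : UG (L2 (Zd d))) {T : ℝ} (hT : 0 < T) (x y : Zd d) :
    MemLp (hh W T x y) 2 := by
  have h1 := hh_int W hT x y
  rw [memLp_two_iff_integrable_sq_norm h1.aestronglyMeasurable]
  refine Integrable.mono' h1.norm (h1.aestronglyMeasurable.norm.pow 2)
    (Eventually.of_forall fun t => ?_)
  have h2 := hh_le W hT x y t
  have h3 := norm_nonneg (hh W T x y t)
  rw [Real.norm_of_nonneg (by positivity)]
  nlinarith

/-- the resolvent is the Fourier transform -/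
theorem lap_eq (W : UG (L2 (Zd d))) (T : ℝ) (x y : Zd d) (E : ℝ) :
    lap W ((E : ℂ) + (1 / (2 * T) : ℝ) * Complex.I) x y =
      Complex.I * 𝓕 (hh W T x y) (-(1 / (2 * Real.pi)) * E) := by
  unfold lap
  rw [Real.fourier_real_eq_integral_exp_smul]
  congr 1
  have h1 : (fun v : ℝ => Complex.exp (((-2 * Real.pi * v * (-(1 / (2 * Real.pi)) * E) : ℝ) : ℂ) *
      Complex.I) • hh W T x y v) = (Set.Ioi (0 : ℝ)).indicator fun t : ℝ =>
      Complex.exp (Complex.I * ((E : ℂ) + (1 / (2 * T) : ℝ) * Complex.I) * t) *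
        (W.U t (dl x)) y := by
    funext v
    unfold hh
    by_cases hv : v ∈ Set.Ioi (0 : ℝ)
    · rw [Set.indicator_of_mem hv, Set.indicator_of_mem hv, smul_eq_mul, ← mul_assoc,
        Complex.ofReal_exp, ← Complex.exp_add]
      congr 2
      have hpi : -2 * Real.pi * v * (-(1 / (2 * Real.pi)) * E) = v * E := by
        field_simp
      rw [hpi]
      push_cast
      linear_combination (-(1 / (2 * (T : ℂ))) * v) * Complex.I_sq
    · rw [Set.indicator_of_notMem hv, Set.indicator_of_notMem hv, smul_zero]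
  rw [h1, integral_indicator measurableSet_Ioi]

end Pla

open Pla in
/-- PLA: Plancherel's formula for one matrix element -/
theorem t_PLA : St_PLA := by
  intro d W T hT x y
  have hpi := Real.pi_pos
  have h1 := Pool.Agent.Helper710.PosGroup.plancherel_lintegral (hh W T x y) (hh_int W hT x y)
    (hh_two W hT x y)
  set c : ℝ := -(1 / (2 * Real.pi)) with hc
  have hc0 : c ≠ 0 := by
    rw [hc]
    have : 0 < 1 / (2 * Real.pi) := by positivity
    linarith
  -- scaling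
  have h2 : ∫⁻ E : ℝ, ‖𝓕 (hh W T x y) (c * E)‖ₑ ^ 2 =
      ENNReal.ofReal (2 * Real.pi) * ∫⁻ ξ : ℝ, ‖𝓕 (hh W T x y) ξ‖ₑ ^ 2 := by
    have e1 := (measurableEmbedding_mulLeft₀ hc0).lintegral_map (μ := volume)
      (fun ξ : ℝ => ‖𝓕 (hh W T x y) ξ‖ₑ ^ 2)
    rw [Real.map_volume_mul_left hc0, lintegral_smul_measure] at e1
    rw [← e1]
    have e2 : |c⁻¹| = 2 * Real.pi := by
      rw [hc, abs_inv, abs_neg, abs_of_pos (by positivity)]
      field_simp
    rw [e2, smul_eq_mul]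
  have h3 : ∀ E : ℝ, ‖lap W ((E : ℂ) + (1 / (2 * T) : ℝ) * Complex.I) x y‖ₑ =
      ‖𝓕 (hh W T x y) (c * E)‖ₑ := by
    intro E
    rw [lap_eq, enorm_mul, ← hc]
    have : ‖Complex.I‖ₑ = 1 := by rw [← ofReal_norm, Complex.norm_I, ENNReal.ofReal_one]
    rw [this, one_mul]
  simp only [h3]
  rw [h2, h1, ← mul_assoc, ← ENNReal.ofReal_mul (by positivity)]
  have h4 : 1 / (2 * Real.pi * T) * (2 * Real.pi) = 1 / T := by field_simp
  rw [h4]
  have h5 : (fun t : ℝ => ‖hh W T x y t‖ₑ ^ 2) = (Set.Ioi (0 : ℝ)).indicator fun t =>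
      ENNReal.ofReal (Real.exp (-(t / T))) * ‖(W.U t (dl x)) y‖ₑ ^ 2 := by
    funext t
    unfold hh
    by_cases ht : t ∈ Set.Ioi (0 : ℝ)
    · rw [Set.indicator_of_mem ht, Set.indicator_of_mem ht, enorm_mul, mul_pow]
      congr 1
      rw [← ofReal_norm, Complex.norm_real, Real.norm_of_nonneg (Real.exp_pos _).le,
        ← ENNReal.ofReal_pow (Real.exp_pos _).le, ← Real.exp_nat_mul]
      congr 2
      push_cast
      field_simp
    · rw [Set.indicator_of_notMem ht, Set.indicator_of_notMem ht, enorm_zero]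
      norm_num
  rw [h5, lintegral_indicator measurableSet_Ioi, ← lintegral_const_mul' _ _ ENNReal.ofReal_ne_top]
  refine lintegral_congr fun t => ?_
  rw [← mul_assoc, ← ENNReal.ofReal_mul (by positivity)]
  congr 2
  ring

/-- Tonelli -/
theorem Pla.swap {Ω ι : Type*} [MeasurableSpace Ω] [Countable ι] (μ : Measure Ω) [SFinite μ]
    (G : ι → Ω → ℝ → ℝ≥0∞) (hG : ∀ i, Measurable (Function.uncurry (G i))) (c : ℝ≥0∞)
    (hc : c ≠ ⊤) :
    c * ∫⁻ E : ℝ, (∫⁻ V, (∑' i, G i V E) ∂μ) = ∫⁻ V, (∑' i, c * ∫⁻ E : ℝ, G i V E) ∂μ := by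
  have h1 : ∫⁻ E : ℝ, (∫⁻ V, (∑' i, G i V E) ∂μ) = ∫⁻ V, (∫⁻ E : ℝ, (∑' i, G i V E)) ∂μ := by
    refine lintegral_lintegral_swap (Measurable.aemeasurable ?_)
    have h2 : Measurable fun p : Ω × ℝ => ∑' i, G i p.1 p.2 := Measurable.tsum hG
    exact h2.comp measurable_swap
  rw [h1, ← lintegral_const_mul' _ _ hc]
  refine lintegral_congr fun V => ?_
  have h3 : ∀ i, AEMeasurable (fun E : ℝ => G i V E) volume := fun i =>
    ((hG i).comp measurable_prodMk_left).aemeasurable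
  rw [lintegral_tsum h3, ← ENNReal.tsum_mul_left]

/-- the integrand in energy space -/
noncomputable def Pla.gE {d : ℕ} (ev : (Zd d → ℝ) → UG (L2 (Zd d))) (η R : ℝ) (y : Zd d)
    (V : Zd d → ℝ) (E : ℝ) : ℝ≥0∞ :=
  if R ≤ ‖y‖ then ‖lap (ev V) ((E : ℂ) + (η : ℝ) * Complex.I) 0 y‖ₑ ^ 2 else 0

/-- the integrand in time space -/
noncomputable def Pla.gt {d : ℕ} (ev : (Zd d → ℝ) → UG (L2 (Zd d))) (R : ℝ) (y : Zd d)
    (V : Zd d → ℝ) (t : ℝ) : ℝ≥0∞ :=
  if R ≤ ‖y‖ then ‖((ev V).U t (dl 0)) y‖ₑ ^ 2 else 0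

open Pla in
theorem Pla.gE_meas {d : ℕ} {ev : (Zd d → ℝ) → UG (L2 (Zd d))}
    (hev : ∀ V, IsGrp (-1) V (ev V)) {η : ℝ} (hη : 0 < η) (R : ℝ) (y : Zd d) :
    Measurable (Function.uncurry (gE ev η R y)) := by
  have h1 := (t_LCT d (-1) ev hev η hη 0 y).measurable
  by_cases h : R ≤ ‖y‖
  · have e : Function.uncurry (gE ev η R y) = fun p : (Zd d → ℝ) × ℝ =>
        ‖lap (ev p.1) ((p.2 : ℂ) + (η : ℝ) * Complex.I) 0 y‖ₑ ^ 2 := by
      funext p
      simp only [Function.uncurry, gE, if_pos h]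
    rw [e]
    exact h1.enorm.pow_const 2
  · have e : Function.uncurry (gE ev η R y) = fun _ => 0 := by
      funext p
      simp only [Function.uncurry, gE, if_neg h]
    rw [e]
    exact measurable_const

open Pla in
theorem Pla.gt_meas {d : ℕ} (ev : (Zd d → ℝ) → UG (L2 (Zd d))) (R : ℝ) (y : Zd d)
    (V : Zd d → ℝ) : Measurable (gt ev R y V) := by
  by_cases h : R ≤ ‖y‖
  · have e : gt ev R y V = fun t => ‖((ev V).U t (dl 0)) y‖ₑ ^ 2 := by
      funext p
      simp only [gt, if_pos h]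
    rw [e]
    exact (ut_cont' (ev V) 0 y).measurable.enorm.pow_const 2
  · have e : gt ev R y V = fun _ => 0 := by
      funext p
      simp only [gt, if_neg h]
    rw [e]
    exact measurable_const

open Pla in
theorem Pla.one {d : ℕ} (ev : (Zd d → ℝ) → UG (L2 (Zd d))) {T : ℝ} (hT : 0 < T) (R : ℝ)
    (y : Zd d) (V : Zd d → ℝ) :
    ENNReal.ofReal (1 / (2 * Real.pi * T)) * ∫⁻ E : ℝ, gE ev (1 / (2 * T)) R y V E =
      ∫⁻ t in Set.Ioi (0 : ℝ), ENNReal.ofReal (Real.exp (-(t / T)) / T) * gt ev R y V t := by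
  by_cases h : R ≤ ‖y‖
  · simp only [gE, gt, if_pos h]
    exact t_PLA d (ev V) T hT 0 y
  · simp only [gE, gt, if_neg h]
    simp

open Pla in
theorem Pla.esc_univ {d : ℕ} (ν : Measure ℝ) [IsProbabilityMeasure ν]
    {ev : (Zd d → ℝ) → UG (L2 (Zd d))} (hev : ∀ V, IsGrp (-1) V (ev V)) {T : ℝ} (hT : 0 < T)
    (R : ℝ) : esc ev ν Set.univ T R = tail ev ν T R := by
  have hprob : IsProbabilityMeasure (PP d ν) := by unfold PP; infer_instance
  have h1 : esc ev ν Set.univ T R = ENNReal.ofReal (1 / (2 * Real.pi * T)) *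
      ∫⁻ E : ℝ, (∫⁻ V, (∑' y, gE ev (1 / (2 * T)) R y V E) ∂(PP d ν)) := by
    unfold esc
    rw [Measure.restrict_univ]
    rfl
  have h2 : tail ev ν T R = ∫⁻ V, (∫⁻ t in Set.Ioi (0 : ℝ),
      ENNReal.ofReal (Real.exp (-(t / T)) / T) * ∑' y, gt ev R y V t) ∂(PP d ν) := rfl
  rw [h1, h2, Pla.swap (PP d ν) (gE ev (1 / (2 * T)) R)
    (gE_meas hev (by positivity) R) _ ENNReal.ofReal_ne_top]
  refine lintegral_congr fun V => ?_
  rw [tsum_congr fun y => Pla.one ev hT R y V, ← lintegral_tsum]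
  · refine lintegral_congr fun t => ?_
    rw [ENNReal.tsum_mul_left]
  · intro y
    refine Measurable.aemeasurable ?_
    exact Measurable.mul (by fun_prop) (gt_meas ev R y V)

/-- ESC: the energy-resolved escape probability -/
theorem t_ESC : St_ESC := by
  intro d ν _ ev hev T R hT
  have hmain := Pla.esc_univ ν hev hT R
  refine ⟨fun I => ?_, hmain⟩
  rw [← hmain]
  unfold esc
  refine mul_le_mul_right ?_ _
  exact lintegral_mono' (Measure.restrict_mono_set _ (Set.subset_univ _)) le_rfl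

end Pool.Agent.Helper18.Tg

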